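import Mathlib
import Pool.Agent.Y201.C3.Stm
import Pool.Agent.H952R2.Sextic.CommonZero

/-! # Project CF, job ETA: a point where a symmetric matrix has rank at most one -/

set_option autoImplicit false

namespace Pool.Agent.Q251.CF

open MvPolynomial

noncomputable section

/-- the equations `A i j (x) = u_i u_j` in the variables `x`, `u` -/
def eqn (A : Matrix (Fin 3) (Fin 3) (MvPolynomial (Fin 4) ℂ)) (p : Fin 3 × Fin 3) :
    MvPolynomial (Fin 4 ⊕ Fin 3) ℂ :=
  rename Sum.inl (A p.1 p.2) - X (Sum.inr p.1) * X (Sum.inr p.2)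

theorem eta : Pool.Agent.Y201.C3.S_ETA := by
  intro A hA h0
  -- six of the nine pairs
  let κ := {p : Fin 3 × Fin 3 // p.1 ≤ p.2}
  have hcard : Fintype.card κ < Fintype.card (Fin 4 ⊕ Fin 3) := by
    have h1 : Fintype.card κ = 6 := by
      simp only [κ]
      decide
    rw [h1]
    simp
  obtain ⟨z, hz, h⟩ := Pool.Agent.H952R2.Sextic.exists_common_zero hcard
    (fun p : κ => eqn A p.1) (by
      intro p
      unfold eqn
      rw [map_sub, map_mul, eval_X, eval_X, eval_rename]
      have h2 : ((0 : Fin 4 ⊕ Fin 3 → ℂ) ∘ Sum.inl) = 0 := by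
        funext i
        rfl
      rw [h2, h0]
      simp)
  obtain ⟨x, hx⟩ : ∃ x : Fin 4 → ℂ, x = fun i => z (Sum.inl i) := ⟨_, rfl⟩
  obtain ⟨u, hu⟩ : ∃ u : Fin 3 → ℂ, u = fun i => z (Sum.inr i) := ⟨_, rfl⟩
  have key : ∀ i j : Fin 3, eval x (A i j) = u i * u j := by
    have h3 : ∀ i j : Fin 3, i ≤ j → eval x (A i j) = u i * u j := by
      intro i j hij
      have h4 := h ⟨(i, j), hij⟩
      unfold eqn at h4
      rw [map_sub, map_mul, eval_X, eval_X, eval_rename, sub_eq_zero] at h4
      have h5 : z ∘ Sum.inl = x := by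
        rw [hx]
        rfl
      rw [h5] at h4
      rw [h4, hu]
    intro i j
    rcases le_total i j with hij | hij
    · exact h3 i j hij
    · have h7 : A i j = A j i := (hA.apply i j).symm
      rw [h7, h3 j i hij, mul_comm]
  refine ⟨x, ?_, ?_⟩
  · intro hx0
    apply hz
    have hu0 : ∀ i, u i = 0 := by
      intro i
      have h6 := key i i
      rw [hx0, h0] at h6
      exact mul_self_eq_zero.1 h6.symm
    funext i
    rcases i with i | i
    · exact (congrFun hx i).symm.trans (congrFun hx0 i)
    · exact (congrFun hu i).symm.trans (hu0 i)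
  · intro i j k l
    rw [key, key, key, key]
    ring

end

end Pool.Agent.Q251.CF
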