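import Mathlib
import Pool.Agent.Q251.CF.Eta
import Pool.Agent.Y201.LI.Stm2
import Pool.Agent.Y246.C3.Cb
import Pool.Agent.Y201.LI.Cases2

/-! # Project CF, job ANI: the conic bundle of a line on a smooth cubic fourfold has no section -/

set_option autoImplicit false

namespace Pool.Agent.Q251.CF

open MvPolynomial Pool.Agent.Y201.C3 Pool.Agent.Y246.C3

noncomputable section

section Der

variable {T : Fin 6 → Fin 6 → Fin 6 → ℂ}

/-- the product rule for the trilinear form -/
lemma pd_Bf (l : Fin 4) (x y z : Fin 6 → MvPolynomial (Fin 4) ℂ) :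
    pderiv l (Bf T x y z) = Bf T (fun i => pderiv l (x i)) y z +
      Bf T x (fun i => pderiv l (y i)) z + Bf T x y (fun i => pderiv l (z i)) := by
  unfold Bf
  simp only [map_sum, ← Finset.sum_add_distrib]
  refine Finset.sum_congr rfl fun i _ => Finset.sum_congr rfl fun j _ =>
    Finset.sum_congr rfl fun k _ => ?_
  rw [Derivation.leibniz, Derivation.leibniz, Derivation.leibniz, MvPolynomial.algebraMap_eq,
    pderiv_C]
  simp only [smul_eq_mul, mul_zero, add_zero]
  ring

/-- the index of the coordinate `X l` in `yy` -/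
def ix (l : Fin 4) : Fin 6 := ⟨l.val + 2, by omega⟩

lemma pd_yy (l : Fin 4) : (fun i => pderiv l (yy i)) = E (ix l) := by
  funext i
  fin_cases l <;> fin_cases i <;>
    simp [yy, E, ix, pderiv_X]

lemma pd_E (l : Fin 4) (a : Fin 6) :
    (fun i => pderiv l ((E a : Fin 6 → MvPolynomial (Fin 4) ℂ) i)) = fun _ => 0 := by
  funext i
  unfold E
  by_cases h : i = a
  · subst h
    rw [Pi.single_eq_same, pderiv_one]
  · rw [Pi.single_eq_of_ne h, map_zero]

lemma Bf_z1 {R : Type} [CommRing R] [Algebra ℂ R] (y z : Fin 6 → R) :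
    Bf T (fun _ => 0) y z = 0 := by
  unfold Bf
  simp

lemma Bf_z2 {R : Type} [CommRing R] [Algebra ℂ R] (x z : Fin 6 → R) :
    Bf T x (fun _ => 0) z = 0 := by
  unfold Bf
  simp

/-- the derivative of the quadratic form at a constant vector -/
lemma pd_qf (hT : SymT T) (l : Fin 4) (u : Fin 3 → ℂ) :
    pderiv l (qf (cm T yy) fun i => C (u i)) =
      3 * Bf T (fun i => C (u 0) * E 0 i + (C (u 1) * E 1 i + C (u 2) * yy i))
        (fun i => C (u 0) * E 0 i + (C (u 1) * E 1 i + C (u 2) * yy i)) (E (ix l)) := by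
  rw [qf_cm]
  have c3 : (3 : MvPolynomial (Fin 4) ℂ) = C 3 := (map_ofNat C 3).symm
  have c6 : (6 : MvPolynomial (Fin 4) ℂ) = C 6 := (map_ofNat C 6).symm
  rw [c3, c6]
  simp only [map_add, Derivation.leibniz, pderiv_C, smul_eq_mul, mul_zero, add_zero,
    Derivation.leibniz_pow, pd_Bf, pd_yy, pd_E, Bf_z1, Bf_z2, zero_add, nsmul_eq_mul]
  simp only [Bf_add1, Bf_add2 hT, Bf_smul1, Bf_smul2 hT]
  rw [← c3, ← c6, Bf_comm12 hT (E 1) (E 0) (E (ix l)), Bf_comm12 hT yy (E 0) (E (ix l)),
    Bf_comm12 hT yy (E 1) (E (ix l)), Bf_comm12 hT (E (ix l)) yy yy, Bf_comm23 hT yy (E (ix l)) yy,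
    Bf_comm23 hT (E 0) (E (ix l)) yy, Bf_comm23 hT (E 1) (E (ix l)) yy]
  ring

end Der

variable {T : Fin 6 → Fin 6 → Fin 6 → ℂ}

/-- the point `(0, 0, η)` -/
def pt (η : Fin 4 → ℂ) : Fin 6 → ℂ := fun i => eval η (yy i)

lemma pt0 (η : Fin 4 → ℂ) : pt η 0 = 0 := by simp [pt, yy]

lemma pt1 (η : Fin 4 → ℂ) : pt η 1 = 0 := by simp [pt, yy]

lemma pt_ix (η : Fin 4 → ℂ) (l : Fin 4) : pt η (ix l) = η l := by
  fin_cases l <;> simp [pt, yy, ix]

lemma pt_ne {η : Fin 4 → ℂ} (h : η ≠ 0) : pt η ≠ 0 := by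
  intro h0
  apply h
  funext l
  rw [← pt_ix η l, h0]
  rfl

lemma ev_cm (η : Fin 4 → ℂ) (i j : Fin 3) :
    eval η (cm T yy i j) = cm T (pt η) i j := by
  have h := cm_map (T := T) (aeval η : MvPolynomial (Fin 4) ℂ →ₐ[ℂ] ℂ) yy i j
  rw [aeval_eq_eval] at h
  exact h

lemma Bf_Ei (i : Fin 6) (w : Fin 6 → ℂ) :
    Bf T (E i) w w = ∑ j, ∑ k, T i j k * w j * w k := by
  unfold Bf
  rw [Finset.sum_eq_single i]
  · refine Finset.sum_congr rfl fun j _ => Finset.sum_congr rfl fun k _ => ?_
    unfold E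
    rw [Pi.single_eq_same, mul_one]
    rfl
  · intro b _ hb
    refine Finset.sum_eq_zero fun j _ => Finset.sum_eq_zero fun k _ => ?_
    unfold E
    rw [Pi.single_eq_of_ne hb]
    ring
  · intro h
    exact absurd (Finset.mem_univ _) h

theorem ani2 (hAN : S_AN) : Pool.Agent.Y201.LI.S_ANI2 := by
  intro T hT hS hL hnp V hV
  have hcm0 : ∀ i j, eval 0 (cm T yy i j) = 0 := by
    intro i j
    rw [ev_cm]
    have h0 : pt 0 = fun _ => 0 := by
      funext i
      fin_cases i <;> simp [pt, yy]
    rw [h0]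
    have hz3 : ∀ x y : Fin 6 → ℂ, Bf T x y (fun _ => 0) = 0 := by
      intro x y
      unfold Bf
      simp
    fin_cases i <;> fin_cases j <;> simp [cm, hz3]
  obtain ⟨η, hη, hmin⟩ := eta (cm T yy) (cm_symm yy) hcm0
  have hy := pt_ne hη
  have h00 : pt η 0 = 0 := pt0 η
  have h01 : pt η 1 = 0 := pt1 η
  have e000 : Bf T (E 0 : Fin 6 → ℂ) (E 0) (E 0) = 0 := Bf_E0 hL (by decide) (by decide) (by decide)
  have e001 : Bf T (E 0 : Fin 6 → ℂ) (E 0) (E 1) = 0 := Bf_E0 hL (by decide) (by decide) (by decide)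
  have e010 : Bf T (E 0 : Fin 6 → ℂ) (E 1) (E 0) = 0 := Bf_E0 hL (by decide) (by decide) (by decide)
  have e011 : Bf T (E 0 : Fin 6 → ℂ) (E 1) (E 1) = 0 := Bf_E0 hL (by decide) (by decide) (by decide)
  have e100 : Bf T (E 1 : Fin 6 → ℂ) (E 0) (E 0) = 0 := Bf_E0 hL (by decide) (by decide) (by decide)
  have e101 : Bf T (E 1 : Fin 6 → ℂ) (E 0) (E 1) = 0 := Bf_E0 hL (by decide) (by decide) (by decide)
  have e110 : Bf T (E 1 : Fin 6 → ℂ) (E 1) (E 0) = 0 := Bf_E0 hL (by decide) (by decide) (by decide)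
  have e111 : Bf T (E 1 : Fin 6 → ℂ) (E 1) (E 1) = 0 := Bf_E0 hL (by decide) (by decide) (by decide)
  refine hAN (cm T yy) (cm_symm yy) η ?_ hmin ?_ V hV
  · -- some entry does not vanish
    by_contra hcon
    push Not at hcon
    have hc : ∀ i j, cm T (pt η) i j = 0 := fun i j => by rw [← ev_cm]; exact hcon i j
    have c00 := hc 0 0
    have c01 := hc 0 1
    have c11 := hc 1 1
    have c02 := hc 0 2
    have c12 := hc 1 2
    have c22 := hc 2 2
    simp only [cm, Matrix.of_apply, Matrix.cons_val', Matrix.cons_val_zero, Matrix.cons_val_one,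
      Matrix.cons_val_two, Matrix.head_cons, Matrix.tail_cons] at c00 c01 c11 c02 c12 c22
    have d00 : Bf T (E 0) (E 0) (pt η) = 0 := by simpa using c00
    have d01 : Bf T (E 0) (E 1) (pt η) = 0 := by simpa using c01
    have d11 : Bf T (E 1) (E 1) (pt η) = 0 := by simpa using c11
    have d02 : Bf T (E 0) (pt η) (pt η) = 0 := by simpa using c02
    have d12 : Bf T (E 1) (pt η) (pt η) = 0 := by simpa using c12
    have d22 : Bf T (pt η) (pt η) (pt η) = 0 := by simpa using c22
    obtain ⟨i, j, k, hijk⟩ := hnp (pt η) h00 h01 hy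
    apply hijk
    obtain ⟨P, hP⟩ : ∃ P : Fin 3 → Fin 6 → ℂ, P = ![E 0, E 1, pt η] := ⟨_, rfl⟩
    rw [← hP]
    have p0 : P 0 = E 0 := by rw [hP]; rfl
    have p1 : P 1 = E 1 := by rw [hP]; rfl
    have p2 : P 2 = pt η := by rw [hP]; rfl
    have srt : ∀ a b c : Fin 3, a ≤ b → b ≤ c → Bf T (P a) (P b) (P c) = 0 := by
      intro a b c hab hbc
      have hc3 : ∀ x : Fin 3, x = 0 ∨ x = 1 ∨ x = 2 := by decide
      rcases hc3 a with rfl | rfl | rfl <;> rcases hc3 b with rfl | rfl | rfl <;>
        rcases hc3 c with rfl | rfl | rfl <;>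
        first
        | exact absurd hab (by decide)
        | exact absurd hbc (by decide)
        | skip
      · rw [p0]; exact e000
      · rw [p0, p1]; exact e001
      · rw [p0, p2]; exact d00
      · rw [p0, p1]; exact e011
      · rw [p0, p1, p2]; exact d01
      · rw [p0, p2]; exact d02
      · rw [p1]; exact e111
      · rw [p1, p2]; exact d11
      · rw [p1, p2]; exact d12
      · rw [p2]; exact d22
    rcases le_total i j with hij | hij
    · rcases le_total j k with hjk | hjk
      · exact srt i j k hij hjk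
      · rw [Bf_comm23 hT]
        rcases le_total i k with hik | hik
        · exact srt i k j hik hjk
        · rw [Bf_comm12 hT]
          exact srt k i j hik hij
    · rw [Bf_comm12 hT]
      rcases le_total i k with hik | hik
      · exact srt j i k hij hik
      · rw [Bf_comm23 hT]
        rcases le_total j k with hjk | hjk
        · exact srt j k i hjk hik
        · rw [Bf_comm12 hT]
          exact srt k j i hjk hij
  · -- the derivative at a kernel vector
    intro u hu hker
    by_contra hcon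
    push Not at hcon
    have hqf : (∑ i, ∑ j, C (u i) * cm T yy i j * C (u j)) = qf (cm T yy) fun i => C (u i) := rfl
    obtain ⟨w, hw⟩ : ∃ w : Fin 6 → ℂ, w = fun i => u 0 * E 0 i + (u 1 * E 1 i + u 2 * pt η i) :=
      ⟨_, rfl⟩
    have hsing : w = 0 := by
      apply hS
      intro i
      rw [← Bf_Ei]
      by_cases hi : ∃ l : Fin 4, i = ix l
      · obtain ⟨l, rfl⟩ := hi
        have h1 := hcon l
        rw [hqf, pd_qf hT] at h1
        have h2 : eval η (Bf T (fun i => C (u 0) * E 0 i + (C (u 1) * E 1 i + C (u 2) * yy i))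
            (fun i => C (u 0) * E 0 i + (C (u 1) * E 1 i + C (u 2) * yy i)) (E (ix l))) =
            Bf T w w (E (ix l)) := by
          have h3 := Bf_map (T := T) (aeval η : MvPolynomial (Fin 4) ℂ →ₐ[ℂ] ℂ)
            (fun i => C (u 0) * E 0 i + (C (u 1) * E 1 i + C (u 2) * yy i))
            (fun i => C (u 0) * E 0 i + (C (u 1) * E 1 i + C (u 2) * yy i)) (E (ix l))
          rw [E_map] at h3
          have h4 : (fun i => (aeval η : MvPolynomial (Fin 4) ℂ →ₐ[ℂ] ℂ)
              (C (u 0) * E 0 i + (C (u 1) * E 1 i + C (u 2) * yy i))) = w := by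
            rw [hw]
            funext i
            have h5 : ∀ a : Fin 6, (aeval η : MvPolynomial (Fin 4) ℂ →ₐ[ℂ] ℂ) (E a i) =
                (E a : Fin 6 → ℂ) i := fun a => congrFun (E_map (aeval η) a) i
            rw [map_add, map_add, map_mul, map_mul, map_mul, h5, h5, aeval_C, aeval_C, aeval_C]
            rfl
          rw [h4] at h3
          exact h3
        rw [map_mul, h2] at h1
        have h6 : Bf T w w (E (ix l)) = 0 := by
          have h7 : eval η (3 : MvPolynomial (Fin 4) ℂ) = 3 := map_ofNat _ 3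
          rw [h7] at h1
          exact (mul_eq_zero.1 h1).resolve_left (by norm_num)
        rw [Bf_comm12 hT, Bf_comm23 hT]
        exact h6
      · -- `i = 0` or `i = 1`
        have hi2 : i = 0 ∨ i = 1 := by
          fin_cases i
          · exact Or.inl rfl
          · exact Or.inr rfl
          · exact absurd ⟨0, rfl⟩ hi
          · exact absurd ⟨1, rfl⟩ hi
          · exact absurd ⟨2, rfl⟩ hi
          · exact absurd ⟨3, rfl⟩ hi
        have k0 := hker 0
        have k1 := hker 1
        rw [Fin.sum_univ_three, ev_cm, ev_cm, ev_cm] at k0 k1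
        simp only [cm, Matrix.of_apply, Matrix.cons_val', Matrix.cons_val_zero,
          Matrix.cons_val_one, Matrix.cons_val_two, Matrix.head_cons, Matrix.tail_cons] at k0 k1
        have hal : algebraMap ℂ ℂ (3 / 2) = 3 / 2 := rfl
        rw [hal] at k0 k1
        rcases hi2 with rfl | rfl
        · rw [hw]
          simp only [Bf_add2 hT, Bf_add3 hT, Bf_smul2 hT, Bf_smul3 hT]
          rw [e000, e001, e010, e011, Bf_comm23 hT (E 0) (pt η) (E 0),
            Bf_comm23 hT (E 0) (pt η) (E 1)]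
          linear_combination (2 / 3) * u 2 * k0
        · rw [hw]
          simp only [Bf_add2 hT, Bf_add3 hT, Bf_smul2 hT, Bf_smul3 hT]
          rw [e100, e101, e110, e111, Bf_comm23 hT (E 1) (pt η) (E 0),
            Bf_comm23 hT (E 1) (pt η) (E 1), Bf_comm12 hT (E 1) (E 0) (pt η)]
          linear_combination (2 / 3) * u 2 * k1
    have w0 := congrFun hsing 0
    have w1 := congrFun hsing 1
    rw [hw] at w0 w1
    simp only [E, h00, h01] at w0 w1
    simp at w0 w1
    have hu2 : u 2 = 0 := by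
      by_contra h2
      apply hy
      funext i
      have wi := congrFun hsing i
      rw [hw] at wi
      simp only [w0, w1, zero_mul, zero_add] at wi
      exact (mul_eq_zero.1 wi).resolve_left h2
    apply hu
    funext i
    fin_cases i
    · exact w0
    · exact w1
    · exact hu2

/-- the version for cubics without planes -/
theorem ani (hAN : S_AN) : S_ANI := by
  intro T hT hS hN hL
  refine ani2 hAN T hT hS hL ?_
  intro y h0 h1 hy
  refine hN _ ?_
  exact Pool.Agent.Y201.LI.ind_E y h0 h1 hy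

end

end Pool.Agent.Q251.CF
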