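import Mathlib
import Pool.Agent.Y201.LI.Stm2
import Pool.Agent.Y246.C3.Cb

/-! # Project CF, job INV: the inverse of a birational parametrization -/

set_option autoImplicit false

namespace Pool.Agent.Q251.CF

open MvPolynomial Pool.Agent.TH314.PD Pool.Agent.Y246.C3

noncomputable section

variable {M : Type} [Field M] [Algebra ℂ M]

lemma exists_forms {m n : ℕ} (q : Fin m → M) (W : Fin n → M) (hW : ∀ i, W i ∈ ratioField q) :
    ∃ (D : ℕ) (P : Fin n → MvPolynomial (Fin m) ℂ) (Q : MvPolynomial (Fin m) ℂ),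
      (∀ i, (P i).IsHomogeneous D) ∧ Q.IsHomogeneous D ∧ aeval q Q ≠ 0 ∧
        ∀ i, aeval q (P i) = aeval q Q * W i := by
  classical
  choose D P Q h1 h2 h3 h4 using fun i => exists_form q (W i) (hW i)
  refine ⟨∑ i, D i, fun i => P i * ∏ j ∈ Finset.univ.erase i, Q j, ∏ i, Q i, ?_, ?_, ?_, ?_⟩
  · intro i
    have h5 := (h1 i).mul (IsHomogeneous.prod (Finset.univ.erase i) Q D fun j _ => h2 j)
    rwa [Finset.add_sum_erase _ _ (Finset.mem_univ i)] at h5
  · exact IsHomogeneous.prod _ _ _ fun i _ => h2 i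
  · rw [map_prod]
    exact Finset.prod_ne_zero_iff.2 fun i _ => h3 i
  · intro i
    rw [map_mul, h4 i, ← Finset.mul_prod_erase _ _ (Finset.mem_univ i), map_mul]
    ring

lemma aeval_comp {σ τ : Type} {R : Type} [CommRing R] [Algebra ℂ R] (x : σ → R)
    (H : τ → MvPolynomial σ ℂ) (p : MvPolynomial τ ℂ) :
    aeval x (aeval H p) = aeval (fun l => aeval x (H l)) p := by
  have h2 : (aeval x).comp (aeval H) =
      (aeval (fun l => aeval x (H l)) : MvPolynomial τ ℂ →ₐ[ℂ] R) := by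
    apply algHom_ext
    intro i
    rw [AlgHom.comp_apply, aeval_X, aeval_X]
  rw [← h2]
  rfl

lemma not_dvd_X {F : MvPolynomial (Fin 6) ℂ} (hF : F.IsHomogeneous 3) (hF0 : F ≠ 0) (i : Fin 6) :
    ¬ F ∣ X i := by
  rintro ⟨B, hB⟩
  have hB0 : B ≠ 0 := by
    rintro rfl
    rw [mul_zero] at hB
    exact X_ne_zero i hB
  have h1 := totalDegree_mul_of_isDomain hF0 hB0
  rw [← hB, totalDegree_X, hF.totalDegree hF0] at h1
  omega

theorem inv : Pool.Agent.Y201.LI.S_INV := by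
  intro F hF hF0 M _ _ s hs G hG hFG hforms hsr
  have hs0 : ∀ i, s i ≠ 0 := by
    intro i h
    have h1 := hs 1 (X i) (isHomogeneous_X _ _) (by rw [aeval_X]; exact h)
    exact X_ne_zero i h1
  obtain ⟨x, hx⟩ : ∃ x : Fin 6 → M, x = fun l => aeval s (G l) := ⟨_, rfl⟩
  rw [← hx] at hsr hforms
  obtain ⟨D, P, Q, hP, hQ, hQ0, hPQ⟩ := exists_forms x (fun i => s i / s 0) (fun i => hsr i 0)
  obtain ⟨c, hc⟩ : ∃ c : M, c = aeval x Q / s 0 := ⟨_, rfl⟩
  have hc0 : c ≠ 0 := by
    rw [hc]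
    exact div_ne_zero hQ0 (hs0 0)
  have hPc : ∀ i, aeval x (P i) = c * s i := by
    intro i
    rw [hPQ, hc]
    ring
  have hGc : ∀ i, aeval x (aeval P (G i)) = c ^ 3 * x i := by
    intro i
    rw [aeval_comp]
    simp only [hPc]
    rw [aeval_smul_form (hG i), hx]
  have hFx : aeval x F = 0 := by
    rw [hx, ← aeval_comp, hFG, map_zero]
  refine ⟨D, P, hP, ?_, ?_⟩
  · intro i j
    refine hforms (D * 3 + 1) _ ?_ ?_
    · exact (((hG i).aeval P hP).mul (isHomogeneous_X _ _)).sub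
        (((hG j).aeval P hP).mul (isHomogeneous_X _ _))
    · rw [map_sub, map_mul, map_mul, hGc, hGc, aeval_X, aeval_X]
      ring
  · by_contra hcon
    push Not at hcon
    have hx0 : ∀ i, x i = 0 := by
      intro i
      obtain ⟨B, hB⟩ := hcon i
      have h1 := hGc i
      rw [hB, map_mul, hFx, zero_mul] at h1
      exact (mul_eq_zero.1 h1.symm).resolve_left (pow_ne_zero 3 hc0)
    exact not_dvd_X hF hF0 0 (hforms 1 (X 0) (isHomogeneous_X _ _) (by rw [aeval_X]; exact hx0 0))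

end

end Pool.Agent.Q251.CF
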