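import Mathlib
import Pool.Agent.Q251.CF.Inv
import Pool.Agent.Y201.C3.Glue

/-! # Project CF, job ARC: a base point over every line -/

set_option autoImplicit false

namespace Pool.Agent.Q251.CF

open MvPolynomial Pool.Agent.TH314.PD Pool.Agent.Y246.C3

noncomputable section

/-- evaluation at a constant of the value at a vector of polynomials -/
lemma ev_aeval {σ : Type} (β : σ → Polynomial ℂ) (t : ℂ) (g : MvPolynomial σ ℂ) :
    (aeval β g).eval t = eval (fun l => (β l).eval t) g := by
  have h : ((Polynomial.aeval t : Polynomial ℂ →ₐ[ℂ] ℂ).comp (aeval β)) =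
      (aeval (fun l => (β l).eval t) : MvPolynomial σ ℂ →ₐ[ℂ] ℂ) := by
    apply algHom_ext
    intro i
    rw [AlgHom.comp_apply, aeval_X, aeval_X, Polynomial.coe_aeval_eq_eval]
  have h2 := congrArg (fun f => f g) (congrArg DFunLike.coe h)
  simp only [AlgHom.comp_apply, Polynomial.coe_aeval_eq_eval] at h2
  exact h2

/-- the limit of the directions of small deformations of an arc -/
lemma arc0 {F : MvPolynomial (Fin 6) ℂ} (hF : F.IsHomogeneous 3)
    (G : Fin 6 → MvPolynomial (Fin 5) ℂ) (hG : ∀ i, (G i).IsHomogeneous 3) (hFG : aeval G F = 0)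
    (β : Fin 5 → Polynomial ℂ) (x₀ x₁ : Fin 6 → ℂ) (ρ : Polynomial ℂ) (hρ : ρ ≠ 0)
    (hρ0 : ρ.eval 0 = 0)
    (h : ∀ i, aeval β (G i) = ρ * (Polynomial.C (x₀ i) + Polynomial.X * Polynomial.C (x₁ i))) :
    (∀ i, eval (fun l => (β l).eval 0) (G i) = 0) ∧
      ∀ (s : ℂ) (w : Fin 5 → ℂ),
        eval (fun i => s * x₀ i + ∑ l, w l * eval (fun l => (β l).eval 0) (pderiv l (G i))) F =
          0 := by
  classical
  obtain ⟨b, hb⟩ : ∃ b : Fin 5 → ℂ, b = fun l => (β l).eval 0 := ⟨_, rfl⟩
  rw [← hb]
  refine ⟨?_, ?_⟩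
  · intro i
    have h1 := congrArg (Polynomial.eval 0) (h i)
    rw [ev_aeval, ← hb, Polynomial.eval_mul, hρ0, zero_mul] at h1
    exact h1
  · -- the order of `ρ`
    obtain ⟨ρ₁, hρ₁, hnd⟩ := Polynomial.exists_eq_pow_rootMultiplicity_mul_and_not_dvd ρ hρ 0
    set r := ρ.rootMultiplicity 0 with hr
    have hr1 : 0 < r := (Polynomial.rootMultiplicity_pos hρ).2 hρ0
    rw [Polynomial.C_0, sub_zero] at hρ₁ hnd
    have hc : ρ₁.eval 0 ≠ 0 := by
      intro h0
      apply hnd
      rw [Polynomial.X_dvd_iff, Polynomial.coeff_zero_eq_eval_zero]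
      exact h0
    have key : ∀ w : Fin 5 → ℂ,
        eval (fun i => ρ₁.eval 0 * x₀ i + ∑ l, w l * eval b (pderiv l (G i))) F = 0 := by
      intro w
      obtain ⟨y, hy⟩ : ∃ y : Fin 6 → Polynomial ℂ, y = fun i =>
          ρ₁ * (Polynomial.C (x₀ i) + Polynomial.X * Polynomial.C (x₁ i)) +
            ∑ l, algebraMap ℂ (Polynomial ℂ) (w l) * aeval β (pderiv l (G i)) +
            Polynomial.X ^ r * ∑ l, β l * algebraMap ℂ (Polynomial ℂ) (eval w (pderiv l (G i))) +
            Polynomial.X ^ r * (Polynomial.X ^ r * algebraMap ℂ (Polynomial ℂ) (eval w (G i))) :=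
        ⟨_, rfl⟩
      have h1 : ∀ i, aeval (fun l => Polynomial.X ^ r * algebraMap ℂ (Polynomial ℂ) (w l) + β l)
          (G i) = Polynomial.X ^ r * y i := by
        intro i
        rw [Pool.Agent.Y201.C3.expand_line (G i) (hG i), h i, hρ₁, hy]
        ring
      have h2 : aeval (fun i => Polynomial.X ^ r * y i) F = 0 := by
        have h3 : (fun i => Polynomial.X ^ r * y i) = fun i =>
            aeval (fun l => Polynomial.X ^ r * algebraMap ℂ (Polynomial ℂ) (w l) + β l) (G i) := by
          funext i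
          rw [h1]
        rw [h3, ← aeval_comp, hFG, map_zero]
      rw [aeval_smul_form hF] at h2
      have h4 : aeval y F = 0 := (mul_eq_zero.1 h2).resolve_left
        (pow_ne_zero 3 (pow_ne_zero r Polynomial.X_ne_zero))
      have h5 := congrArg (Polynomial.eval 0) h4
      rw [ev_aeval, Polynomial.eval_zero] at h5
      refine Eq.trans ?_ h5
      congr 2
      funext i
      rw [hy]
      simp only [Polynomial.eval_add, Polynomial.eval_mul, Polynomial.eval_C, Polynomial.eval_X,
        Polynomial.eval_pow, Polynomial.eval_finsetSum, zero_mul, add_zero,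
        Polynomial.algebraMap_eq, ev_aeval, zero_pow hr1.ne', ← hb]
    have hsc : ∀ (a : ℂ) (z : Fin 6 → ℂ), eval (fun i => a * z i) F = a ^ 3 * eval z F := by
      intro a z
      have h6 := aeval_smul_form hF a z
      rw [aeval_eq_eval, aeval_eq_eval] at h6
      exact h6
    -- nonzero `s`
    have key2 : ∀ (s : ℂ) (w : Fin 5 → ℂ), s ≠ 0 →
        eval (fun i => s * x₀ i + ∑ l, w l * eval b (pderiv l (G i))) F = 0 := by
      intro s w hs
      have h7 := key (fun l => ρ₁.eval 0 / s * w l)
      have h8 : (fun i => s * x₀ i + ∑ l, w l * eval b (pderiv l (G i))) = fun i =>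
          (s / ρ₁.eval 0) * (ρ₁.eval 0 * x₀ i +
            ∑ l, (ρ₁.eval 0 / s * w l) * eval b (pderiv l (G i))) := by
        funext i
        have h9 : ∑ l, (ρ₁.eval 0 / s * w l) * eval b (pderiv l (G i)) =
            ρ₁.eval 0 / s * ∑ l, w l * eval b (pderiv l (G i)) := by
          rw [Finset.mul_sum]
          exact Finset.sum_congr rfl fun l _ => by ring
        rw [h9]
        field_simp
      rw [h8, hsc, h7, mul_zero]
    intro s w
    by_cases hs : s = 0
    · -- a polynomial in `s` with infinitely many zeros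
      obtain ⟨P, hP⟩ : ∃ P : Polynomial ℂ, P = aeval (fun i => Polynomial.X *
          Polynomial.C (x₀ i) + Polynomial.C (∑ l, w l * eval b (pderiv l (G i)))) F := ⟨_, rfl⟩
      have hPe : ∀ t : ℂ, P.eval t =
          eval (fun i => t * x₀ i + ∑ l, w l * eval b (pderiv l (G i))) F := by
        intro t
        rw [hP, ev_aeval]
        congr 2
        funext i
        rw [Polynomial.eval_add, Polynomial.eval_mul, Polynomial.eval_X, Polynomial.eval_C,
          Polynomial.eval_C]
      have hP0 : P = 0 := by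
        apply Polynomial.eq_zero_of_infinite_isRoot
        refine Set.Infinite.mono (s := {t : ℂ | t ≠ 0}) ?_ ?_
        · intro t ht
          change Polynomial.IsRoot P t
          rw [Polynomial.IsRoot.def, hPe]
          exact key2 t w ht
        · have h10 : {t : ℂ | t ≠ 0} = {0}ᶜ := rfl
          rw [h10]
          exact (Set.finite_singleton (0 : ℂ)).infinite_compl
      rw [← hPe, hP0, Polynomial.eval_zero]
    · exact key2 s w hs

/-- a nonvanishing minor of two independent vectors -/
lemma minor {p q : Fin 6 → ℂ} (h : LinearIndependent ℂ ![p, q]) :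
    ∃ i j, p i * q j - p j * q i ≠ 0 := by
  by_contra hcon
  push Not at hcon
  have hp : p ≠ 0 := h.ne_zero 0
  obtain ⟨i, hi⟩ : ∃ i, p i ≠ 0 := by
    by_contra h0
    push Not at h0
    exact hp (funext h0)
  rw [LinearIndependent.pair_iff] at h
  have h1 := h (-q i) (p i) (by
    funext j
    simp only [Pi.add_apply, Pi.smul_apply, smul_eq_mul, Pi.zero_apply]
    linear_combination hcon i j)
  exact hi h1.2

/-- polynomials which agree at all nonzero points are equal -/
lemma eq_of_ne_zero {f g : Polynomial ℂ} (h : ∀ t : ℂ, t ≠ 0 → f.eval t = g.eval t) : f = g := by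
  rw [← sub_eq_zero]
  apply Polynomial.eq_zero_of_infinite_isRoot
  refine Set.Infinite.mono (s := {t : ℂ | t ≠ 0}) ?_ ?_
  · intro t ht
    change Polynomial.IsRoot _ t
    rw [Polynomial.IsRoot.def, Polynomial.eval_sub, h t ht, sub_self]
  · have h10 : {t : ℂ | t ≠ 0} = {0}ᶜ := rfl
    rw [h10]
    exact (Set.finite_singleton (0 : ℂ)).infinite_compl

/-- the parametrized line -/
def ln (p q : Fin 6 → ℂ) (i : Fin 6) : Polynomial ℂ :=
  Polynomial.C (p i) + Polynomial.X * Polynomial.C (q i)

lemma ln_eval (p q : Fin 6 → ℂ) (i : Fin 6) (t : ℂ) : (ln p q i).eval t = p i + t * q i := by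
  rw [ln, Polynomial.eval_add, Polynomial.eval_C, Polynomial.eval_mul, Polynomial.eval_X,
    Polynomial.eval_C]

/-- a line in the cubic -/
lemma line_zero {T : Fin 6 → Fin 6 → Fin 6 → ℂ} (hT : Pool.Agent.Y201.C3.SymT T)
    {p q : Fin 6 → ℂ}
    (hl : ∀ i j k : Fin 2, Pool.Agent.Y201.C3.Bf T ((![p, q] : Fin 2 → Fin 6 → ℂ) i)
      ((![p, q] : Fin 2 → Fin 6 → ℂ) j) ((![p, q] : Fin 2 → Fin 6 → ℂ) k) = 0) :
    aeval (ln p q) (Pool.Agent.Y201.C3.frm T) = 0 := by
  apply Polynomial.funext
  intro t
  rw [ev_aeval, Polynomial.eval_zero]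
  have h1 : (fun l => (ln p q l).eval t) = fun i => p i + t * q i := by
    funext i
    rw [ln_eval]
  rw [h1, ← aeval_eq_eval, Pool.Agent.Y201.C3.aeval_frm]
  have l000 := hl 0 0 0
  have l001 := hl 0 0 1
  have l010 := hl 0 1 0
  have l011 := hl 0 1 1
  have l100 := hl 1 0 0
  have l101 := hl 1 0 1
  have l110 := hl 1 1 0
  have l111 := hl 1 1 1
  simp only [Matrix.cons_val_zero, Matrix.cons_val_one] at l000 l001 l010 l011 l100 l101 l110 l111
  simp only [Bf_add1, Bf_add2 hT, Bf_add3 hT, Bf_smul1, Bf_smul2 hT, Bf_smul3 hT]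
  rw [l000, l001, l010, l011, l100, l101, l110, l111]
  ring

theorem arc : Pool.Agent.Y201.LI.S_ARC := by
  classical
  intro T hT hS G hG hFG m H hH hdiv p q hpq hline hne
  have hF := Pool.Agent.Y201.C3.frm_hom T
  have hFP := line_zero hT hline
  obtain ⟨P, hP⟩ : ∃ P : Fin 6 → Polynomial ℂ, P = ln p q := ⟨_, rfl⟩
  rw [← hP] at hFP
  obtain ⟨h, hh⟩ : ∃ h : Fin 5 → Polynomial ℂ, h = fun l => aeval P (H l) := ⟨_, rfl⟩
  have hrel : ∀ i j, aeval h (G i) * P j = aeval h (G j) * P i := by
    intro i j
    obtain ⟨B, hB⟩ := hdiv i j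
    have h1 := congrArg (aeval P) hB
    rw [map_sub, map_mul, map_mul, aeval_X, aeval_X, map_mul, hFP, zero_mul, aeval_comp,
      aeval_comp, ← hh, sub_eq_zero] at h1
    exact h1
  obtain ⟨i₁, hi₁⟩ := hne
  have hne1 : aeval h (G i₁) ≠ 0 := by
    intro h0
    apply hi₁
    have h1 := congrArg (Polynomial.eval 0) h0
    rw [ev_aeval, Polynomial.eval_zero] at h1
    have h2 : (fun l => (h l).eval 0) = fun l => eval p (H l) := by
      funext l
      rw [hh]
      simp only
      rw [ev_aeval]
      congr 2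
      funext i
      rw [hP, ln_eval, zero_mul, add_zero]
    rw [h2] at h1
    rw [← aeval_eq_eval, aeval_comp]
    exact h1
  -- the common factor
  obtain ⟨g, hg⟩ : ∃ g, g = Submodule.IsPrincipal.generator (Ideal.span (Set.range h)) := ⟨_, rfl⟩
  have hspan : Ideal.span {g} = Ideal.span (Set.range h) := by
    rw [hg]
    exact Ideal.span_singleton_generator _
  have hdvd : ∀ l, ∃ k, h l = g * k := by
    intro l
    have h1 : h l ∈ Ideal.span {g} := by
      rw [hspan]
      exact Ideal.subset_span ⟨l, rfl⟩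
    exact Ideal.mem_span_singleton'.1 h1 |>.imp fun k hk => by rw [mul_comm]; exact hk.symm
  choose k hk using hdvd
  have hgmem : g ∈ Ideal.span (Set.range h) := by
    rw [← hspan]
    exact Ideal.mem_span_singleton_self g
  obtain ⟨a, ha⟩ := (Ideal.mem_span_range_iff_exists_fun).1 hgmem
  have hg0 : g ≠ 0 := by
    intro h0
    apply hne1
    have h1 : h = fun l => 0 * k l := by
      funext l
      rw [hk l, h0]
    rw [h1, aeval_smul_form (hG i₁)]
    ring
  have hbez : ∑ l, a l * k l = 1 := by
    have h1 : g * ∑ l, a l * k l = g * 1 := by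
      rw [mul_one, Finset.mul_sum]
      conv_rhs => rw [← ha]
      refine Finset.sum_congr rfl fun l _ => ?_
      rw [hk l]
      ring
    exact mul_left_cancel₀ hg0 h1
  have hGk : ∀ i, aeval h (G i) = g ^ 3 * aeval k (G i) := by
    intro i
    have h1 : h = fun l => g * k l := by
      funext l
      exact hk l
    rw [h1, aeval_smul_form (hG i)]
  have hrelk : ∀ i j, aeval k (G i) * P j = aeval k (G j) * P i := by
    intro i j
    have h1 := hrel i j
    rw [hGk, hGk, mul_assoc, mul_assoc] at h1
    exact mul_left_cancel₀ (pow_ne_zero 3 hg0) h1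
  -- the factor `ρ`
  obtain ⟨i₀, j₀, hD⟩ := minor hpq
  obtain ⟨D, hDD⟩ : ∃ D, D = p i₀ * q j₀ - p j₀ * q i₀ := ⟨_, rfl⟩
  rw [← hDD] at hD
  obtain ⟨ρ, hρ⟩ : ∃ ρ : Polynomial ℂ, ρ = Polynomial.C (D⁻¹) *
    (Polynomial.C (q j₀) * aeval k (G i₀) - Polynomial.C (q i₀) * aeval k (G j₀)) := ⟨_, rfl⟩
  have hGρ : ∀ i, aeval k (G i) = ρ * P i := by
    intro i
    have h1 := hrelk i i₀
    have h2 := hrelk i j₀
    have h3 : (Polynomial.C (D⁻¹) : Polynomial ℂ) * Polynomial.C D = 1 := by
      rw [← Polynomial.C_mul, inv_mul_cancel₀ hD, Polynomial.C_1]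
    have h4 : (Polynomial.C D : Polynomial ℂ) = Polynomial.C (q j₀) * P i₀ -
        Polynomial.C (q i₀) * P j₀ := by
      rw [hDD, hP]
      simp only [ln, Polynomial.C_sub, Polynomial.C_mul]
      ring
    rw [hρ]
    calc aeval k (G i) = aeval k (G i) * (Polynomial.C (D⁻¹) * Polynomial.C D) := by
          rw [h3, mul_one]
      _ = _ := by
          rw [h4]
          linear_combination (Polynomial.C (D⁻¹) * Polynomial.C (q j₀)) * h1 -
            (Polynomial.C (D⁻¹) * Polynomial.C (q i₀)) * h2
  have hρ0 : ρ ≠ 0 := by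
    intro h0
    apply hne1
    rw [hGk, hGρ, h0]
    ring
  have hli : ∀ t : ℂ, (fun i => p i + t * q i) ≠ 0 := by
    intro t h0
    rw [LinearIndependent.pair_iff] at hpq
    have h1 := hpq 1 t (by
      rw [one_smul]
      exact h0)
    exact one_ne_zero h1.1
  have hq0 : q ≠ 0 := hpq.ne_zero 1
  by_cases hroot : ∃ t, ρ.eval t = 0
  · -- a root of `ρ`
    obtain ⟨t, ht⟩ := hroot
    let φ : Polynomial ℂ →ₐ[ℂ] Polynomial ℂ := Polynomial.aeval (Polynomial.X + Polynomial.C t)
    have hφ : ∀ (f : Polynomial ℂ) (s : ℂ), (φ f).eval s = f.eval (s + t) := by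
      intro f s
      change (Polynomial.aeval (Polynomial.X + Polynomial.C t) f).eval s = _
      rw [← Polynomial.comp_eq_aeval, Polynomial.eval_comp]
      simp
    have hφinj : ∀ f : Polynomial ℂ, φ f = 0 → f = 0 := by
      intro f hf
      apply Polynomial.funext
      intro s
      have h1 := hφ f (s - t)
      rw [hf, Polynomial.eval_zero, sub_add_cancel] at h1
      rw [← h1, Polynomial.eval_zero]
    have h0 := arc0 hF G hG hFG (fun l => φ (k l)) (fun i => p i + t * q i) q (φ ρ)
      (fun h => hρ0 (hφinj _ h)) (by rw [hφ, zero_add]; exact ht) (by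
        intro i
        have h1 : aeval (fun l => φ (k l)) (G i) = φ (aeval k (G i)) := by
          rw [MvPolynomial.comp_aeval_apply]
        rw [h1, hGρ, map_mul]
        congr 1
        apply Polynomial.funext
        intro s
        rw [hφ, hP, ln_eval]
        simp only [Polynomial.eval_add, Polynomial.eval_mul, Polynomial.eval_C,
          Polynomial.eval_X]
        ring)
    refine ⟨fun l => (φ (k l)).eval 0, ?_, h0.1, fun i => p i + t * q i, hli t, ⟨1, t, ?_⟩, h0.2⟩
    · intro h1
      have h2 := congrArg (Polynomial.eval t) hbez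
      rw [Polynomial.eval_finsetSum, Polynomial.eval_one] at h2
      have h3 : ∑ l, Polynomial.eval t (a l * k l) = 0 := by
        refine Finset.sum_eq_zero fun l _ => ?_
        have h4 := congrFun h1 l
        simp only [hφ, zero_add, Pi.zero_apply] at h4
        rw [Polynomial.eval_mul, h4, mul_zero]
      rw [h3] at h2
      exact zero_ne_one h2
    · funext i
      simp
  · -- `ρ` is constant: the point at infinity
    push Not at hroot
    have hdeg : ρ.degree = 0 := by
      by_contra hd
      obtain ⟨t, ht⟩ := IsAlgClosed.exists_root ρ hd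
      exact hroot t ht
    obtain ⟨c, hc⟩ : ∃ c, ρ = Polynomial.C c := ⟨_, Polynomial.eq_C_of_degree_eq_zero hdeg⟩
    have hc0 : c ≠ 0 := by
      rintro rfl
      exact hρ0 (by rw [hc, Polynomial.C_0])
    obtain ⟨N, hN⟩ : ∃ N, N = Finset.univ.sup fun l => (k l).natDegree := ⟨_, rfl⟩
    have hNle : ∀ l, (k l).natDegree ≤ N := fun l => by
      rw [hN]
      exact Finset.le_sup (f := fun l => (k l).natDegree) (Finset.mem_univ l)
    have hN1 : 1 ≤ N := by
      by_contra hlt
      have hN0 : N = 0 := by omega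
      have hkC : ∀ l, k l = Polynomial.C ((k l).eval 0) := by
        intro l
        have h1 := Polynomial.eq_C_of_natDegree_le_zero ((hNle l).trans_eq hN0)
        conv_lhs => rw [h1]
        rw [Polynomial.coeff_zero_eq_eval_zero]
      apply hq0
      funext i
      have h2 : ∀ t, (aeval k (G i)).eval t = (aeval k (G i)).eval 0 := by
        intro t
        rw [ev_aeval, ev_aeval]
        congr 2
        funext l
        rw [hkC l, Polynomial.eval_C, Polynomial.eval_C]
      have h3 := h2 1
      rw [hGρ, hc, Polynomial.eval_mul, Polynomial.eval_mul, Polynomial.eval_C,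
        Polynomial.eval_C, hP, ln_eval, ln_eval] at h3
      have h4 := mul_left_cancel₀ hc0 h3
      rw [Pi.zero_apply]
      linear_combination h4
    obtain ⟨l₁, -, hl₁⟩ := Finset.exists_mem_eq_sup Finset.univ Finset.univ_nonempty
      fun l => (k l).natDegree
    rw [← hN] at hl₁
    have hkl : k l₁ ≠ 0 := by
      intro h0
      rw [h0, Polynomial.natDegree_zero] at hl₁
      omega
    have hev : ∀ (l : Fin 5) (t : ℂ), t ≠ 0 →
        ((k l).reflect N).eval t = t ^ N * (k l).eval t⁻¹ := by
      intro l t ht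
      let _ := invertibleOfNonzero (inv_ne_zero ht)
      have h1 := Polynomial.eval₂_reflect_mul_pow (RingHom.id ℂ) t⁻¹ N (k l) (hNle l)
      rw [invOf_eq_inv, inv_inv] at h1
      have h2 : ((k l).reflect N).eval t * t⁻¹ ^ N = (k l).eval t⁻¹ := h1
      rw [← h2, inv_pow]
      field_simp
    have h0 := arc0 hF G hG hFG (fun l => (k l).reflect N) q p
      (Polynomial.C c * Polynomial.X ^ (3 * N - 1))
      (mul_ne_zero (by rwa [Ne, Polynomial.C_eq_zero]) (pow_ne_zero _ Polynomial.X_ne_zero))
      (by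
        rw [Polynomial.eval_mul, Polynomial.eval_pow, Polynomial.eval_X,
          zero_pow (by omega), mul_zero]) (by
        intro i
        apply eq_of_ne_zero
        intro t ht
        rw [ev_aeval]
        have h1 : (fun l => ((k l).reflect N).eval t) = fun l => t ^ N * (k l).eval t⁻¹ := by
          funext l
          exact hev l t ht
        have h2 := aeval_smul_form (hG i) (t ^ N) (fun l => (k l).eval t⁻¹)
        rw [aeval_eq_eval, aeval_eq_eval] at h2
        rw [h1, h2, ← ev_aeval, hGρ, hc, hP, Polynomial.eval_mul, Polynomial.eval_C, ln_eval]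
        simp only [Polynomial.eval_add, Polynomial.eval_mul, Polynomial.eval_C,
          Polynomial.eval_X, Polynomial.eval_pow]
        have h3 : (t ^ N) ^ 3 = t ^ (3 * N - 1) * t := by
          rw [← pow_mul, ← pow_succ]
          congr 1
          omega
        rw [h3]
        field_simp
        ring)
    refine ⟨fun l => ((k l).reflect N).eval 0, ?_, h0.1, q, hq0, ⟨0, 1, ?_⟩, h0.2⟩
    · intro h1
      have h2 := congrFun h1 l₁
      simp only [Pi.zero_apply] at h2
      rw [← Polynomial.coeff_zero_eq_eval_zero, Polynomial.coeff_reflect,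
        Polynomial.revAt_le (Nat.zero_le N), Nat.sub_zero] at h2
      apply hkl
      rw [← Polynomial.leadingCoeff_eq_zero, Polynomial.leadingCoeff, ← hl₁]
      exact h2
    · rw [zero_smul, one_smul, zero_add]

end

end Pool.Agent.Q251.CF
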