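import Mathlib
import Pool.Agent.H952R2.Sextic.CommonZero
import Pool.Agent.Q251.CF.Arc

/-! # Project CF: smooth cubic forms are prime; countably many conditions -/

set_option autoImplicit false

namespace Pool.Agent.Q251.CF

open MvPolynomial Pool.Agent.Y201.C3

noncomputable section

/-- a factor of a form is a form (proof of `Pool.Agent.Chud.homog_of_dvd`) -/
theorem homog_of_dvd {σ : Type*} [Finite σ] {k : Type*} [Field k] {F G : MvPolynomial σ k} {n : ℕ}
    (hF : F.IsHomogeneous n) (hF0 : F ≠ 0) (h : G ∣ F) : G.IsHomogeneous G.totalDegree := by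
  obtain ⟨K, rfl⟩ := h
  have hG0 : G ≠ 0 := left_ne_zero_of_mul hF0
  have hK0 : K ≠ 0 := right_ne_zero_of_mul hF0
  have hle : ∀ P : MvPolynomial σ k, P ≠ 0 → (P : MvPowerSeries σ k).order ≤ P.totalDegree := by
    intro P hP
    obtain ⟨d, hd⟩ := MvPolynomial.ne_zero_iff.1 hP
    have h1 : (P : MvPowerSeries σ k).order ≤ (d.degree : ℕ∞) :=
      MvPowerSeries.order_le (by simpa using hd)
    refine h1.trans ?_
    have h2 : d.degree ≤ P.totalDegree := by
      have := MvPolynomial.le_totalDegree (p := P) (s := d) (MvPolynomial.mem_support_iff.2 hd)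
      simpa [Finsupp.degree_apply, Finsupp.sum] using this
    exact_mod_cast h2
  have hmul : ((G * K : MvPolynomial σ k) : MvPowerSeries σ k).order =
      (G : MvPowerSeries σ k).order + (K : MvPowerSeries σ k).order := by
    rw [MvPolynomial.coe_mul, MvPowerSeries.order_mul]
  have hFo : (n : ℕ∞) ≤ ((G * K : MvPolynomial σ k) : MvPowerSeries σ k).order := by
    apply MvPowerSeries.nat_le_order
    intro d hd
    rw [MvPolynomial.coeff_coe]
    by_contra hne
    have := hF hne
    have h' : d.degree = n := by rw [← this, Finsupp.degree_eq_weight_one]; rfl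
    omega
  have hT : (G * K).totalDegree = n := hF.totalDegree hF0
  rw [MvPolynomial.totalDegree_mul_of_isDomain hG0 hK0] at hT
  have hGo := hle G hG0
  have hKo := hle K hK0
  rw [hmul] at hFo
  intro d hd
  have h1 : (G : MvPowerSeries σ k).order ≤ (d.degree : ℕ∞) :=
      MvPowerSeries.order_le (by simpa using hd)
  have h2 : d.degree ≤ G.totalDegree := by
      have := MvPolynomial.le_totalDegree (p := G) (s := d) (MvPolynomial.mem_support_iff.2 hd)
      simpa [Finsupp.degree_apply, Finsupp.sum] using this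
  have h3 : (n : ℕ∞) ≤ (d.degree : ℕ∞) + (K.totalDegree : ℕ∞) := hFo.trans (add_le_add h1 hKo)
  have h4 : n ≤ d.degree + K.totalDegree := by exact_mod_cast h3
  have h5 : d.degree = G.totalDegree := by omega
  rw [← h5, Finsupp.degree_eq_weight_one]
  rfl

variable {T : Fin 6 → Fin 6 → Fin 6 → ℂ}

theorem smooth_zero (hS : SmoothT T) {z : Fin 6 → ℂ} (h : ∀ y, Bf T y z z = 0) : z = 0 := by
  apply hS
  intro i
  rw [smooth_iff]
  exact h _

theorem pd_frm (hT : SymT T) (l : Fin 6) (z : Fin 6 → ℂ) :
    eval z (pderiv l (frm T)) = 3 * Bf T (fun i => if i = l then (1 : ℂ) else 0) z z := by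
  have h := pderiv_frmG hT l z
  rw [aeval_eq_eval] at h
  exact h

theorem frm_ne (hT : SymT T) (hS : SmoothT T) : frm T ≠ 0 := by
  intro h
  have h3 := degree_pos hT hS
  rw [h] at h3
  simp at h3

theorem frm_prime (hT : SymT T) (hS : SmoothT T) : Prime (frm T) := by
  have hF0 := frm_ne hT hS
  have hF := frm_hom T
  rw [← UniqueFactorizationMonoid.irreducible_iff_prime]
  have hunit : ∀ A : MvPolynomial (Fin 6) ℂ, A ∣ frm T → ¬ IsUnit A → eval 0 A = 0 := by
    intro A hA hu
    have h1 := homog_of_dvd hF hF0 hA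
    have h2 : A.totalDegree ≠ 0 := by
      intro h0
      apply hu
      have h3 := totalDegree_eq_zero_iff_eq_C.1 h0
      rw [h3]
      have h4 : coeff 0 A ≠ 0 := by
        intro h5
        rw [h5, C_0] at h3
        rw [h3] at hA
        exact hF0 (zero_dvd_iff.1 hA)
      exact (isUnit_iff_ne_zero.2 h4).map C
    rw [eval_zero]
    exact h1.coeff_eq_zero (by simpa using h2.symm)
  refine ⟨?_, ?_⟩
  · intro hu
    have h2 := (MvPolynomial.isUnit_iff_totalDegree_of_isReduced.mp hu).2
    rw [hF.totalDegree hF0] at h2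
    omega
  · intro A B hAB
    by_contra hcon
    push Not at hcon
    obtain ⟨hA, hB⟩ := hcon
    have a0 := hunit A ⟨B, hAB⟩ hA
    have b0 := hunit B ⟨A, by rw [hAB, mul_comm]⟩ hB
    obtain ⟨x, hx, h⟩ := Pool.Agent.H952R2.Sextic.exists_common_zero (κ := Fin 2) (by simp)
      ![A, B] (by
        intro k
        fin_cases k
        · exact a0
        · exact b0)
    have ha : eval x A = 0 := h 0
    have hb : eval x B = 0 := h 1
    apply hx
    apply hS
    intro i
    rw [smooth_iff]
    have h1 := pd_frm hT i x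
    rw [hAB, pderiv_mul, map_add, map_mul, map_mul, ha, hb, mul_zero, zero_mul, add_zero] at h1
    exact (mul_eq_zero.1 h1.symm).resolve_left (by norm_num)

/-- countably many nonzero polynomials have a common nonzero (Baire) -/
theorem avoid_countable {n : ℕ} {ι : Type} [Countable ι] (W : ι → MvPolynomial (Fin n) ℂ)
    (h : ∀ i, W i ≠ 0) : ∃ x : Fin n → ℂ, ∀ i, eval x (W i) ≠ 0 := by
  have hd : ∀ p : MvPolynomial (Fin n) ℂ, p ≠ 0 → Dense {x : Fin n → ℂ | eval x p ≠ 0} := by
    intro p hp
    rw [dense_iff_inter_open]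
    intro U hU ⟨y, hy⟩
    by_contra hcon
    rw [Set.not_nonempty_iff_eq_empty, Set.eq_empty_iff_forall_notMem] at hcon
    obtain ⟨ε, hε, hball⟩ := Metric.isOpen_iff.1 hU y hy
    apply hp
    refine MvPolynomial.funext_set (fun i => Metric.ball (y i) ε) (fun i => ?_) ?_
    · exact infinite_of_mem_nhds (y i) (Metric.ball_mem_nhds _ hε)
    · intro x hx
      rw [map_zero]
      by_contra hne
      refine hcon x ⟨hball ?_, hne⟩
      rw [ball_pi _ hε]
      exact hx
  have ho : ∀ p : MvPolynomial (Fin n) ℂ, IsOpen {x : Fin n → ℂ | eval x p ≠ 0} := by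
    intro p
    exact isOpen_ne_fun (MvPolynomial.continuous_eval p) continuous_const
  have hdense := dense_iInter_of_isOpen (fun i => ho (W i)) (fun i => hd _ (h i))
  obtain ⟨x, hx⟩ := hdense.nonempty
  rw [Set.mem_iInter] at hx
  exact ⟨x, fun i => hx i⟩

end

end Pool.Agent.Q251.CF
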