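import Mathlib
import Pool.Agent.Q251.CF.Prm

/-! # Project CF: three ternary quadratic forms with a linear syzygy have a common zero -/

set_option autoImplicit false

namespace Pool.Agent.Q251.CF

open MvPolynomial

noncomputable section

/-- the quadratic form of a matrix -/
def qm (A : Matrix (Fin 3) (Fin 3) ℂ) (z : Fin 3 → ℂ) : ℂ := z ⬝ᵥ A.mulVec z

lemma qm_eq (A : Matrix (Fin 3) (Fin 3) ℂ) (z : Fin 3 → ℂ) :
    qm A z = A 0 0 * z 0 ^ 2 + A 1 1 * z 1 ^ 2 + A 2 2 * z 2 ^ 2 +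
      (A 0 1 + A 1 0) * z 0 * z 1 + (A 0 2 + A 2 0) * z 0 * z 2 + (A 1 2 + A 2 1) * z 1 * z 2 := by
  simp only [qm, dotProduct, Matrix.mulVec, Fin.sum_univ_three]
  ring

/-- the syzygy of the coordinates -/
lemma syz3 (A : Fin 3 → Matrix (Fin 3) (Fin 3) ℂ)
    (h : ∀ z : Fin 3 → ℂ, ∑ a, z a * qm (A a) z = 0) : ∃ z : Fin 3 → ℂ, z ≠ 0 ∧
      ∀ a, qm (A a) z = 0 := by
  simp only [Fin.sum_univ_three, qm_eq] at h
  have h1 := h ![1, 0, 0]
  have h2 := h ![0, 1, 0]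
  have h3 := h ![0, 0, 1]
  have h4 := h ![1, 1, 0]
  have h5 := h ![1, -1, 0]
  have h6 := h ![1, 0, 1]
  have h7 := h ![1, 0, -1]
  have h8 := h ![0, 1, 1]
  have h9 := h ![0, 1, -1]
  have h10 := h ![1, 1, 1]
  simp only [Matrix.cons_val_zero, Matrix.cons_val_one, Matrix.cons_val] at h1 h2 h3 h4 h5 h6 h7 h8 h9 h10
  have r1 : A 0 0 0 = 0 := by linear_combination h1
  have r2 : A 1 1 1 = 0 := by linear_combination h2
  have r3 : A 2 2 2 = 0 := by linear_combination h3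
  have r4 : A 0 0 1 + A 0 1 0 + A 1 0 0 = 0 := by linear_combination (h4 - h5) / 2 - h2
  have r5 : A 1 0 1 + A 1 1 0 + A 0 1 1 = 0 := by linear_combination (h4 + h5) / 2 - h1
  have r6 : A 0 0 2 + A 0 2 0 + A 2 0 0 = 0 := by linear_combination (h6 - h7) / 2 - h3
  have r7 : A 2 0 2 + A 2 2 0 + A 0 2 2 = 0 := by linear_combination (h6 + h7) / 2 - h1
  have r8 : A 1 1 2 + A 1 2 1 + A 2 1 1 = 0 := by linear_combination (h8 - h9) / 2 - h3
  have r9 : A 2 1 2 + A 2 2 1 + A 1 2 2 = 0 := by linear_combination (h8 + h9) / 2 - h2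
  have r10 : A 0 1 2 + A 0 2 1 + (A 1 0 2 + A 1 2 0) + (A 2 0 1 + A 2 1 0) = 0 := by
    linear_combination h10 - r1 - r2 - r3 - r4 - r5 - r6 - r7 - r8 - r9
  obtain ⟨R, hR⟩ : ∃ R : Matrix (Fin 3) (Fin 3) ℂ, R =
    !![A 1 0 2 + A 1 2 0, A 1 1 2 + A 1 2 1, A 1 2 2;
       -(A 0 0 2 + A 0 2 0), -(A 0 1 2 + A 0 2 1), -(A 0 2 2);
       A 0 0 1 + A 0 1 0, A 0 1 1, 0] := ⟨_, rfl⟩
  obtain ⟨μ, hμ⟩ := Module.End.exists_eigenvalue (Matrix.toLin' R)
  obtain ⟨v, hv⟩ := hμ.exists_hasEigenvector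
  refine ⟨v, hv.2, ?_⟩
  have hv2 := hv.apply_eq_smul
  rw [Matrix.toLin'_apply] at hv2
  have e0 := congrFun hv2 0
  have e1 := congrFun hv2 1
  have e2 := congrFun hv2 2
  rw [hR] at e0 e1 e2
  simp only [Matrix.mulVec, dotProduct, Fin.sum_univ_three, Matrix.of_apply, Matrix.cons_val',
    Matrix.cons_val_zero, Matrix.cons_val_one, Matrix.cons_val, Pi.smul_apply, smul_eq_mul] at e0 e1 e2
  intro a
  rw [qm_eq]
  fin_cases a
  · change A 0 0 0 * v 0 ^ 2 + A 0 1 1 * v 1 ^ 2 + A 0 2 2 * v 2 ^ 2 +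
      (A 0 0 1 + A 0 1 0) * v 0 * v 1 + (A 0 0 2 + A 0 2 0) * v 0 * v 2 +
      (A 0 1 2 + A 0 2 1) * v 1 * v 2 = 0
    linear_combination v 1 * e2 - v 2 * e1 + v 0 ^ 2 * r1
  · change A 1 0 0 * v 0 ^ 2 + A 1 1 1 * v 1 ^ 2 + A 1 2 2 * v 2 ^ 2 +
      (A 1 0 1 + A 1 1 0) * v 0 * v 1 + (A 1 0 2 + A 1 2 0) * v 0 * v 2 +
      (A 1 1 2 + A 1 2 1) * v 1 * v 2 = 0
    linear_combination v 2 * e0 - v 0 * e2 + v 1 ^ 2 * r2 + v 0 ^ 2 * r4 + v 0 * v 1 * r5
  · change A 2 0 0 * v 0 ^ 2 + A 2 1 1 * v 1 ^ 2 + A 2 2 2 * v 2 ^ 2 +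
      (A 2 0 1 + A 2 1 0) * v 0 * v 1 + (A 2 0 2 + A 2 2 0) * v 0 * v 2 +
      (A 2 1 2 + A 2 2 1) * v 1 * v 2 = 0
    linear_combination v 0 * e1 - v 1 * e0 + v 2 ^ 2 * r3 + v 0 ^ 2 * r6 + v 0 * v 2 * r7 +
      v 1 ^ 2 * r8 + v 1 * v 2 * r9 + v 0 * v 1 * r10

/-- the polynomial of a matrix -/
def qp (A : Matrix (Fin 3) (Fin 3) ℂ) : MvPolynomial (Fin 3) ℂ :=
  ∑ i, ∑ j, C (A i j) * X i * X j

lemma qp_eval (A : Matrix (Fin 3) (Fin 3) ℂ) (z : Fin 3 → ℂ) : eval z (qp A) = qm A z := by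
  simp only [qp, qm, dotProduct, Matrix.mulVec, map_sum, map_mul, eval_C, eval_X,
    Finset.mul_sum]
  refine Finset.sum_congr rfl fun i _ => Finset.sum_congr rfl fun j _ => ?_
  ring

lemma qp_hom (A : Matrix (Fin 3) (Fin 3) ℂ) : (qp A).IsHomogeneous 2 := by
  unfold qp
  refine IsHomogeneous.sum _ _ _ fun i _ => IsHomogeneous.sum _ _ _ fun j _ => ?_
  have h := ((isHomogeneous_C (Fin 3) (A i j)).mul (isHomogeneous_X ℂ i)).mul (isHomogeneous_X ℂ j)
  exact h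

lemma qp_zero (A : Matrix (Fin 3) (Fin 3) ℂ) : eval 0 (qp A) = 0 := by
  rw [qp_eval, qm_eq]
  simp

/-- two common zeros -/
lemma two_zero (f g : MvPolynomial (Fin 3) ℂ) (hf : eval 0 f = 0) (hg : eval 0 g = 0) :
    ∃ z : Fin 3 → ℂ, z ≠ 0 ∧ eval z f = 0 ∧ eval z g = 0 := by
  obtain ⟨z, hz, h⟩ := Pool.Agent.H952R2.Sextic.exists_common_zero (κ := Fin 2) (by simp)
    ![f, g] (by
      intro k
      fin_cases k
      · exact hf
      · exact hg)
  exact ⟨z, hz, h 0, h 1⟩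

/-- a syzygy with two terms -/
lemma syz2 (A B E : Matrix (Fin 3) (Fin 3) ℂ) (a b : Fin 3) (hab : a ≠ b) (s t : ℂ)
    (hs : s ≠ 0) (h : ∀ z : Fin 3 → ℂ, s * z a * qm A z + t * z b * qm B z = 0) :
    ∃ z : Fin 3 → ℂ, z ≠ 0 ∧ qm A z = 0 ∧ qm B z = 0 ∧ qm E z = 0 := by
  have h0 : C s * X a * qp A + C t * X b * qp B = 0 := by
    apply MvPolynomial.funext
    intro z
    simp only [map_add, map_mul, eval_C, eval_X, qp_eval, map_zero]
    exact h z
  by_cases ht : t = 0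
  · subst ht
    rw [C_0, zero_mul, zero_mul, add_zero] at h0
    have hA : qp A = 0 := by
      rcases mul_eq_zero.1 h0 with h1 | h1
      · rcases mul_eq_zero.1 h1 with h2 | h2
        · exact absurd (C_eq_zero.1 h2) hs
        · exact absurd h2 (X_ne_zero a)
      · exact h1
    obtain ⟨z, hz, h1, h2⟩ := two_zero _ _ (qp_zero B) (qp_zero E)
    rw [qp_eval] at h1 h2
    refine ⟨z, hz, ?_, h1, h2⟩
    rw [← qp_eval, hA, map_zero]
  · have hd : (X b : MvPolynomial (Fin 3) ℂ) ∣ C s * X a * qp A := by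
      refine ⟨-(C t * qp B), ?_⟩
      linear_combination h0
    have hp : Prime (X b : MvPolynomial (Fin 3) ℂ) := X_prime
    have hdA : (X b : MvPolynomial (Fin 3) ℂ) ∣ qp A := by
      rcases hp.dvd_or_dvd hd with h1 | h1
      · exfalso
        obtain ⟨Q, hQ⟩ := h1
        have h2 := congrArg (eval (fun i => if i = a then (1 : ℂ) else 0)) hQ
        rw [map_mul, map_mul, eval_C, eval_X, eval_X, if_pos rfl, if_neg (Ne.symm hab)] at h2
        apply hs
        linear_combination h2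
      · exact h1
    obtain ⟨m, hm⟩ := hdA
    have hm0 : eval 0 m = 0 := by
      have h1 := (qp_hom A).coeff_eq_zero (d := Finsupp.single b 1) (by simp)
      rw [hm] at h1
      have h2 := coeff_X_mul (0 : Fin 3 →₀ ℕ) b m
      rw [add_zero] at h2
      rw [h2] at h1
      rw [eval_zero]
      exact h1
    obtain ⟨z, hz, h1, h2⟩ := two_zero m _ hm0 (qp_zero E)
    rw [qp_eval] at h2
    refine ⟨z, hz, ?_, ?_, h2⟩
    · rw [← qp_eval, hm, map_mul, h1, mul_zero]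
    · have h3 : X b * (C s * X a * m + C t * qp B) = 0 := by
        rw [hm] at h0
        linear_combination h0
      have h4 := (mul_eq_zero.1 h3).resolve_left (X_ne_zero b)
      have h5 := congrArg (eval z) h4
      rw [map_add, map_mul, map_mul, map_mul, h1, map_zero, mul_zero, zero_add, eval_C,
        qp_eval] at h5
      exact (mul_eq_zero.1 h5).resolve_left ht

/-- a diagonal syzygy -/
lemma syzd (A : Fin 3 → Matrix (Fin 3) (Fin 3) ℂ) (d : Fin 3 → ℂ) (hd : d ≠ 0)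
    (h : ∀ z : Fin 3 → ℂ, ∑ a, d a * z a * qm (A a) z = 0) : ∃ z : Fin 3 → ℂ, z ≠ 0 ∧
      ∀ a, qm (A a) z = 0 := by
  by_cases h0 : ∀ a, d a ≠ 0
  · obtain ⟨z, hz, h1⟩ := syz3 (fun a => d a • A a) (by
      intro z
      rw [← h z]
      refine Finset.sum_congr rfl fun a _ => ?_
      simp only [qm, Matrix.smul_mulVec, dotProduct_smul, smul_eq_mul]
      ring)
    refine ⟨z, hz, fun a => ?_⟩
    have h2 := h1 a
    simp only [qm, Matrix.smul_mulVec, dotProduct_smul, smul_eq_mul] at h2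
    exact (mul_eq_zero.1 h2).resolve_left (h0 a)
  · push Not at h0
    obtain ⟨c, hc⟩ := h0
    simp only [Fin.sum_univ_three] at h
    have key : ∀ a b : Fin 3, a ≠ b → (∀ i, i = a ∨ i = b ∨ i = c) → d a ≠ 0 →
        (∀ z : Fin 3 → ℂ, d a * z a * qm (A a) z + d b * z b * qm (A b) z = 0) →
        ∃ z : Fin 3 → ℂ, z ≠ 0 ∧ ∀ a, qm (A a) z = 0 := by
      intro a b hab hcov ha hz
      obtain ⟨z, hz, h1, h2, h3⟩ := syz2 (A a) (A b) (A c) a b hab (d a) (d b) ha hz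
      refine ⟨z, hz, fun i => ?_⟩
      rcases hcov i with rfl | rfl | rfl
      · exact h1
      · exact h2
      · exact h3
    obtain ⟨a, ha⟩ := Function.ne_iff.1 hd
    rw [Pi.zero_apply] at ha
    have hac : a ≠ c := by
      intro h1
      rw [h1] at ha
      exact ha hc
    obtain ⟨b, hba, hbc⟩ : ∃ b : Fin 3, b ≠ a ∧ b ≠ c := by
      have : ∀ a c : Fin 3, ∃ b : Fin 3, b ≠ a ∧ b ≠ c := by decide
      exact this a c
    refine key a b hba.symm ?_ ha ?_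
    · intro i
      have : ∀ a b c i : Fin 3, a ≠ c → b ≠ a → b ≠ c → i = a ∨ i = b ∨ i = c := by decide
      exact this a b c i hac hba hbc
    · intro z
      have h1 := h z
      have h2 : ∀ f : Fin 3 → ℂ, f 0 + f 1 + f 2 = f a + f b + f c := by
        intro f
        have h5 : ({a, b, c} : Finset (Fin 3)) = Finset.univ := by
          have : ∀ a b c : Fin 3, a ≠ c → b ≠ a → b ≠ c →
            ({a, b, c} : Finset (Fin 3)) = Finset.univ := by decide
          exact this a b c hac hba hbc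
        have h6 : ∑ i ∈ ({a, b, c} : Finset (Fin 3)), f i = ∑ i, f i := by rw [h5]
        rw [Fin.sum_univ_three, Finset.sum_insert (by simp [hba.symm, hac]),
          Finset.sum_insert (by simp [hbc]), Finset.sum_singleton] at h6
        rw [← h6]
        ring
      rw [h2 (fun i => d i * z i * qm (A i) z)] at h1
      rw [hc] at h1
      linear_combination h1

/-- the transpose rule -/
lemma qm_conj (A Q : Matrix (Fin 3) (Fin 3) ℂ) (z : Fin 3 → ℂ) :
    qm (Q.transpose * A * Q) z = qm A (Q.mulVec z) := by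
  unfold qm
  rw [← Matrix.mulVec_mulVec, ← Matrix.mulVec_mulVec, Matrix.dotProduct_mulVec,
    Matrix.vecMul_transpose]

/-- three ternary quadratic forms with a linear syzygy have a common zero -/
theorem syz (A : Fin 3 → Matrix (Fin 3) (Fin 3) ℂ) (L : Matrix (Fin 3) (Fin 3) ℂ) (hL : L ≠ 0)
    (h : ∀ z : Fin 3 → ℂ, ∑ a, L.mulVec z a * qm (A a) z = 0) : ∃ z : Fin 3 → ℂ, z ≠ 0 ∧
      ∀ a, qm (A a) z = 0 := by
  obtain ⟨l1, l2, d, hd⟩ := Matrix.Pivot.exists_list_transvec_mul_mul_list_transvec_eq_diagonal L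
  obtain ⟨P, hP⟩ : ∃ P, P = (l1.map Matrix.TransvectionStruct.toMatrix).prod := ⟨_, rfl⟩
  obtain ⟨Q, hQ⟩ : ∃ Q, Q = (l2.map Matrix.TransvectionStruct.toMatrix).prod := ⟨_, rfl⟩
  have hPd : P.det = 1 := by
    rw [hP]
    exact Matrix.TransvectionStruct.det_toMatrix_prod l1
  have hQd : Q.det = 1 := by
    rw [hQ]
    exact Matrix.TransvectionStruct.det_toMatrix_prod l2
  rw [← hP, ← hQ] at hd
  have hPu : IsUnit P.det := by rw [hPd]; exact isUnit_one
  have hQu : IsUnit Q.det := by rw [hQd]; exact isUnit_one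
  have hP1 : P⁻¹ * P = 1 := Matrix.nonsing_inv_mul P hPu
  have hP2 : P * P⁻¹ = 1 := Matrix.mul_nonsing_inv P hPu
  have hQ1 : Q * Q⁻¹ = 1 := Matrix.mul_nonsing_inv Q hQu
  have hQ2 : Q⁻¹ * Q = 1 := Matrix.nonsing_inv_mul Q hQu
  have hLQ : L * Q = P⁻¹ * Matrix.diagonal d := by
    rw [← hd, ← mul_assoc, ← mul_assoc, hP1, one_mul]
  have hd0 : d ≠ 0 := by
    intro h0
    apply hL
    rw [h0] at hLQ
    have h1 : L * Q = 0 := by
      rw [hLQ]
      have : Matrix.diagonal (0 : Fin 3 → ℂ) = 0 := Matrix.diagonal_zero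
      rw [this, mul_zero]
    have h2 : L = L * Q * Q⁻¹ := by rw [mul_assoc, hQ1, mul_one]
    rw [h2, h1, zero_mul]
  obtain ⟨z, hz, h1⟩ := syzd (fun a => ∑ b, P⁻¹ b a • (Q.transpose * A b * Q)) d hd0 (by
    intro z
    have h2 := h (Q.mulVec z)
    rw [Matrix.mulVec_mulVec, hLQ] at h2
    rw [← h2]
    have h3 : ∀ a, qm (∑ b, P⁻¹ b a • (Q.transpose * A b * Q)) z =
        ∑ b, P⁻¹ b a * qm (A b) (Q.mulVec z) := by
      intro a
      rw [← qp_eval]
      simp only [← qm_conj]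
      simp only [qm, Matrix.sum_mulVec, dotProduct_sum, Matrix.smul_mulVec, dotProduct_smul, smul_eq_mul,
        qp_eval]
    simp only [h3]
    have h4 : (Matrix.diagonal d).mulVec z = fun a => d a * z a :=
      funext (Matrix.mulVec_diagonal d z)
    rw [← Matrix.mulVec_mulVec, h4]
    simp only [Matrix.mulVec, dotProduct, Finset.sum_mul, Finset.mul_sum]
    rw [Finset.sum_comm]
    refine Finset.sum_congr rfl fun a _ => Finset.sum_congr rfl fun b _ => ?_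
    ring)
  refine ⟨Q.mulVec z, ?_, ?_⟩
  · intro h0
    apply hz
    have h2 : z = (Q⁻¹ * Q).mulVec z := by rw [hQ2, Matrix.one_mulVec]
    rw [h2, ← Matrix.mulVec_mulVec, h0, Matrix.mulVec_zero]
  · intro c
    have h3 : ∀ a, ∑ b, P⁻¹ b a * qm (A b) (Q.mulVec z) = 0 := by
      intro a
      rw [← h1 a]
      simp only [← qm_conj]
      simp only [qm, Matrix.sum_mulVec, dotProduct_sum, Matrix.smul_mulVec, dotProduct_smul, smul_eq_mul]
    have h4 : Matrix.vecMul (fun b => qm (A b) (Q.mulVec z)) P⁻¹ = 0 := by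
      funext a
      rw [Pi.zero_apply, ← h3 a]
      simp only [Matrix.vecMul, dotProduct]
      refine Finset.sum_congr rfl fun b _ => ?_
      ring
    have h5 : Matrix.vecMul (Matrix.vecMul (fun b => qm (A b) (Q.mulVec z)) P⁻¹) P = 0 := by
      rw [h4, Matrix.zero_vecMul]
    rw [Matrix.vecMul_vecMul, hP1, Matrix.vecMul_one] at h5
    exact congrFun h5 c

end

end Pool.Agent.Q251.CF
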