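import Mathlib
import Pool.Agent.Q251.CF.Ani
import Pool.Agent.Q251.CF.Syz
import Pool.Agent.H135R2.VS.Der

/-! # Project CF, job RIG: the planes in a smooth cubic fourfold are rigid -/

set_option autoImplicit false

namespace Pool.Agent.Q251.CF

open MvPolynomial Pool.Agent.Y201.C3 Pool.Agent.Y246.C3

noncomputable section

variable {T : Fin 6 → Fin 6 → Fin 6 → ℂ}

/-- the derivative of the trilinear form -/
lemma der_Bf {k : Subfield ℂ} (D : Derivation k ℂ ℂ) (hk : ∀ i j l, T i j l ∈ k)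
    (x y z : Fin 6 → ℂ) :
    D (Bf T x y z) = Bf T (fun i => D (x i)) y z + Bf T x (fun i => D (y i)) z +
      Bf T x y (fun i => D (z i)) := by
  unfold Bf
  simp only [map_sum, ← Finset.sum_add_distrib]
  refine Finset.sum_congr rfl fun i _ => Finset.sum_congr rfl fun j _ =>
    Finset.sum_congr rfl fun l _ => ?_
  have h : D (T i j l) = 0 := D.map_algebraMap ⟨T i j l, hk i j l⟩
  rw [Derivation.leibniz, Derivation.leibniz, Derivation.leibniz]
  have h2 : algebraMap ℂ ℂ (T i j l) = T i j l := rfl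
  rw [h2, h]
  simp only [smul_eq_mul, mul_zero, add_zero]
  ring

/-- linear combinations -/
def cb (v : Fin 3 → Fin 6 → ℂ) (z : Fin 3 → ℂ) : Fin 6 → ℂ := fun m => ∑ i, z i * v i m

lemma cb_eq (v : Fin 3 → Fin 6 → ℂ) (z : Fin 3 → ℂ) : cb v z = ∑ i, z i • v i := by
  funext m
  rw [Finset.sum_apply]
  rfl

lemma cb_mem (v : Fin 3 → Fin 6 → ℂ) (z : Fin 3 → ℂ) :
    cb v z ∈ Submodule.span ℂ (Set.range v) := by
  rw [cb_eq]
  exact Submodule.sum_mem _ fun i _ => Submodule.smul_mem _ _ (Submodule.subset_span ⟨i, rfl⟩)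

lemma mem_cb {v : Fin 3 → Fin 6 → ℂ} {x : Fin 6 → ℂ}
    (h : x ∈ Submodule.span ℂ (Set.range v)) : ∃ z, x = cb v z := by
  rw [Submodule.mem_span_range_iff_exists_fun] at h
  obtain ⟨c, hc⟩ := h
  exact ⟨c, by rw [cb_eq, hc]⟩

lemma cb_ne {v : Fin 3 → Fin 6 → ℂ} (hv : LinearIndependent ℂ v) {z : Fin 3 → ℂ}
    (h : cb v z = 0) : z = 0 := by
  rw [cb_eq] at h
  funext i
  exact Fintype.linearIndependent_iff.1 hv z h i

lemma Bf_cb1 (v : Fin 3 → Fin 6 → ℂ) (z : Fin 3 → ℂ) (x y : Fin 6 → ℂ) :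
    Bf T (cb v z) x y = ∑ i, z i * Bf T (v i) x y := by
  unfold cb
  rw [Bf_eq, Bg_sum1]
  refine Finset.sum_congr rfl fun i _ => ?_
  rw [Bg_smul1, ← Bf_eq]

lemma Bf_cb (hT : SymT T) (v : Fin 3 → Fin 6 → ℂ) (z : Fin 3 → ℂ) (y : Fin 6 → ℂ) :
    Bf T y (cb v z) (cb v z) = qm (Matrix.of fun i j => Bf T y (v i) (v j)) z := by
  rw [Bf_comm12 hT, Bf_cb1]
  simp only [qm, dotProduct, Matrix.mulVec, Matrix.of_apply]
  refine Finset.sum_congr rfl fun i _ => ?_
  rw [Bf_comm23 hT, Bf_comm12 hT, Bf_cb1]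
  congr 1
  refine Finset.sum_congr rfl fun j _ => ?_
  rw [Bf_comm12 hT (v j), Bf_comm23 hT (v i), Bf_comm12 hT (v i), mul_comm]

lemma span_zero (hT : SymT T) {v : Fin 3 → Fin 6 → ℂ}
    (h : ∀ i j l, Bf T (v i) (v j) (v l) = 0) {x y z : Fin 6 → ℂ}
    (hx : x ∈ Submodule.span ℂ (Set.range v)) (hy : y ∈ Submodule.span ℂ (Set.range v))
    (hz : z ∈ Submodule.span ℂ (Set.range v)) : Bf T x y z = 0 := by
  obtain ⟨a, rfl⟩ := mem_cb hx
  obtain ⟨b, rfl⟩ := mem_cb hy
  obtain ⟨c, rfl⟩ := mem_cb hz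
  rw [Bf_cb1]
  refine Finset.sum_eq_zero fun i _ => ?_
  rw [Bf_comm12 hT, Bf_cb1, Finset.sum_eq_zero, mul_zero]
  intro j _
  rw [Bf_comm23 hT, Bf_comm12 hT, Bf_cb1, Finset.sum_eq_zero, mul_zero]
  intro l _
  rw [Bf_comm23 hT, h, mul_zero]

lemma Bf_sumE (y z w : Fin 6 → ℂ) : Bf T y z w = ∑ m, y m * Bf T (E m) z w := by
  have h : ∀ m, Bf T (E m : Fin 6 → ℂ) z w = ∑ j, ∑ l, T m j l * z j * w l := by
    intro m
    unfold Bf
    rw [Finset.sum_eq_single m]
    · refine Finset.sum_congr rfl fun j _ => Finset.sum_congr rfl fun k _ => ?_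
      unfold E
      rw [Pi.single_eq_same, mul_one]
      rfl
    · intro b _ hb
      refine Finset.sum_eq_zero fun j _ => Finset.sum_eq_zero fun k _ => ?_
      unfold E
      rw [Pi.single_eq_of_ne hb]
      ring
    · intro h
      exact absurd (Finset.mem_univ _) h
  simp only [h]
  unfold Bf
  simp only [Finset.mul_sum]
  refine Finset.sum_congr rfl fun i _ => Finset.sum_congr rfl fun j _ =>
    Finset.sum_congr rfl fun l _ => ?_
  have h2 : algebraMap ℂ ℂ (T i j l) = T i j l := rfl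
  rw [h2]
  ring

/-- independent rows have a nonzero minor -/
lemma exists_minor {v : Fin 3 → Fin 6 → ℂ} (hv : LinearIndependent ℂ v) :
    ∃ s : Fin 3 → Fin 6, Function.Injective s ∧ (Matrix.of fun i j => v i (s j)).det ≠ 0 := by
  have hr : (Matrix.of v).rank = 3 := by
    have h1 : LinearIndependent ℂ (Matrix.of v).row := hv
    rw [h1.rank_matrix, Fintype.card_fin]
  have hr2 : Module.finrank ℂ (Submodule.span ℂ (Set.range (Matrix.of v).col)) = 3 := by
    rw [← Matrix.rank_eq_finrank_span_cols, hr]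
  obtain ⟨f, hf, -, hli⟩ := Submodule.exists_fun_fin_finrank_span_eq ℂ
    (Set.range (Matrix.of v).col)
  choose J hJ using fun i : Fin 3 => hf (Fin.cast hr2.symm i)
  have hinj : Function.Injective J := by
    intro a b hab
    have h1 : f (Fin.cast hr2.symm a) = f (Fin.cast hr2.symm b) := by
      rw [← hJ a, ← hJ b, hab]
    exact Fin.cast_injective _ (hli.injective h1)
  refine ⟨J, hinj, ?_⟩
  have h3 : LinearIndependent ℂ (Matrix.of fun i j => v i (J j)).col := by
    have h4 : (Matrix.of fun i j => v i (J j)).col = f ∘ Fin.cast hr2.symm := by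
      funext i
      exact hJ i
    rw [h4]
    exact hli.comp _ (Fin.cast_injective _)
  have h5 := Matrix.linearIndependent_cols_iff_isUnit.1 h3
  rw [Matrix.isUnit_iff_isUnit_det] at h5
  exact h5.ne_zero

/-- the reduced basis of a plane -/
lemma reduced {v : Fin 3 → Fin 6 → ℂ} (hv : LinearIndependent ℂ v) :
    ∃ (s : Fin 3 → Fin 6) (v' : Fin 3 → Fin 6 → ℂ), Function.Injective s ∧
      (∀ i j, v' i (s j) = if i = j then 1 else 0) ∧ LinearIndependent ℂ v' ∧
      Submodule.span ℂ (Set.range v') = Submodule.span ℂ (Set.range v) := by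
  obtain ⟨s, hs, hd⟩ := exists_minor hv
  obtain ⟨M, hM⟩ : ∃ M : Matrix (Fin 3) (Fin 3) ℂ, M = Matrix.of fun i j => v i (s j) := ⟨_, rfl⟩
  rw [← hM] at hd
  have hu : IsUnit M.det := isUnit_iff_ne_zero.2 hd
  have h1 : M⁻¹ * M = 1 := Matrix.nonsing_inv_mul M hu
  have h2 : M * M⁻¹ = 1 := Matrix.mul_nonsing_inv M hu
  have hspan : Submodule.span ℂ (Set.range fun i => cb v (M⁻¹ i)) =
      Submodule.span ℂ (Set.range v) := by
    apply le_antisymm
    · rw [Submodule.span_le]
      rintro _ ⟨i, rfl⟩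
      exact cb_mem v _
    · rw [Submodule.span_le]
      rintro _ ⟨i, rfl⟩
      have h3 : v i = cb (fun i => cb v (M⁻¹ i)) (M i) := by
        funext m
        unfold cb
        have h4 : ∀ a, ∑ j, M i j * M⁻¹ j a = if i = a then 1 else 0 := by
          intro a
          have h5 := congrFun (congrFun h2 i) a
          rw [Matrix.mul_apply, Matrix.one_apply] at h5
          exact h5
        calc v i m = ∑ a, (if i = a then (1 : ℂ) else 0) * v a m := by simp
          _ = ∑ a, (∑ j, M i j * M⁻¹ j a) * v a m := by simp only [h4]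
          _ = ∑ j, M i j * ∑ a, M⁻¹ j a * v a m := by
            simp only [Finset.sum_mul, Finset.mul_sum]
            rw [Finset.sum_comm]
            refine Finset.sum_congr rfl fun j _ => Finset.sum_congr rfl fun a _ => ?_
            ring
      change v i ∈ _
      rw [h3]
      exact cb_mem _ _
  have hid : ∀ i j, cb v (M⁻¹ i) (s j) = if i = j then 1 else 0 := by
    intro i j
    have h5 := congrFun (congrFun h1 i) j
    rw [Matrix.mul_apply, Matrix.one_apply] at h5
    rw [← h5]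
    unfold cb
    refine Finset.sum_congr rfl fun a _ => ?_
    rw [hM]
    rfl
  refine ⟨s, fun i => cb v (M⁻¹ i), hs, hid, ?_, hspan⟩
  rw [Fintype.linearIndependent_iff]
  intro g hg j
  have h3 := congrFun hg (s j)
  rw [Finset.sum_apply, Pi.zero_apply] at h3
  simp only [Pi.smul_apply, smul_eq_mul, hid] at h3
  rw [Finset.sum_eq_single j] at h3
  · rw [if_pos rfl, mul_one] at h3
    exact h3
  · intro i _ hij
    rw [if_neg hij, mul_zero]
  · intro h
    exact absurd (Finset.mem_univ _) h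

/-- the complementary indices -/
lemma compl {s : Fin 3 → Fin 6} (hs : Function.Injective s) :
    ∃ t : Fin 3 → Fin 6, (∀ m, (∃ j, m = s j) ∨ ∃ a, m = t a) ∧
      ∀ f : Fin 6 → ℂ, ∑ m, f m = ∑ j, f (s j) + ∑ a, f (t a) := by
  classical
  have hc : ((Finset.univ.image s)ᶜ).card = 3 := by
    rw [Finset.card_compl, Finset.card_image_of_injective _ hs]
    simp
  let t := ((Finset.univ.image s)ᶜ).orderEmbOfFin hc
  have ht : ∀ m, m ∉ Finset.univ.image s ↔ ∃ a, m = t a := by
    intro m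
    have h1 : m ∈ Set.range t ↔ m ∈ ((Finset.univ.image s)ᶜ : Finset (Fin 6)) := by
      rw [Finset.range_orderEmbOfFin]
      exact Iff.rfl
    rw [Finset.mem_compl] at h1
    rw [← h1]
    exact ⟨fun ⟨a, ha⟩ => ⟨a, ha.symm⟩, fun ⟨a, ha⟩ => ⟨a, ha.symm⟩⟩
  refine ⟨t, ?_, ?_⟩
  · intro m
    by_cases h : m ∈ Finset.univ.image s
    · left
      obtain ⟨j, -, hj⟩ := Finset.mem_image.1 h
      exact ⟨j, hj.symm⟩
    · right
      exact (ht m).1 h
  · intro f
    rw [← Finset.sum_add_sum_compl (Finset.univ.image s) f]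
    congr 1
    · rw [Finset.sum_image fun a _ b _ h => hs h]
    · have h1 : (Finset.univ.image s)ᶜ = Finset.univ.image t := by
        ext m
        rw [Finset.mem_compl, ht m, Finset.mem_image]
        exact ⟨fun ⟨a, ha⟩ => ⟨a, Finset.mem_univ _, ha.symm⟩, fun ⟨a, _, ha⟩ => ⟨a, ha.symm⟩⟩
      rw [h1, Finset.sum_image fun a _ b _ h => t.injective h]

/-- rigidity of planes -/
theorem rig : Pool.Agent.Y201.LI.S_RIG := by
  intro k hk T hT hS hTk v hv hX
  obtain ⟨s, v', hs, hid, hli, hspan⟩ := reduced hv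
  refine ⟨v', ?_, hli, hspan⟩
  by_contra hcon
  push Not at hcon
  obtain ⟨a, l, hal⟩ := hcon
  have hX' : ∀ x y z : Fin 6 → ℂ, x ∈ Submodule.span ℂ (Set.range v') →
      y ∈ Submodule.span ℂ (Set.range v') → z ∈ Submodule.span ℂ (Set.range v') →
      Bf T x y z = 0 := by
    intro x y z hx hy hz
    rw [hspan] at hx hy hz
    exact span_zero hT hX hx hy hz
  have htr : Transcendental k (v' a l) := by
    intro halg
    apply hal
    have h2 := halg.isIntegral.mem_range_algebraMap_of_minpoly_splits (K := k)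
      (IsAlgClosed.splits _)
    obtain ⟨c, hc⟩ := h2
    rw [← hc]
    exact c.2
  obtain ⟨D, hD⟩ := Pool.Agent.H135R2.VS.exists_der (K := k) (L := ℂ) (κ := Unit)
    (x := fun _ => v' a l) (by
      rw [algebraicIndependent_unique_type_iff]
      exact htr) (fun _ => 1)
  have hD1 : D (v' a l) = 1 := hD ()
  obtain ⟨t, ht, hsum⟩ := compl hs
  have hw0 : ∀ i j, D (v' i (s j)) = 0 := by
    intro i j
    rw [hid]
    split_ifs
    · exact D.map_one_eq_zero
    · exact map_zero D
  obtain ⟨L, hLd⟩ : ∃ L : Matrix (Fin 3) (Fin 3) ℂ, L = Matrix.of fun b i => D (v' i (t b)) :=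
    ⟨_, rfl⟩
  have hL : L ≠ 0 := by
    intro h0
    rcases ht l with ⟨j, hj⟩ | ⟨b, hb⟩
    · rw [hj, hw0] at hD1
      exact zero_ne_one hD1
    · have h1 := congrFun (congrFun h0 b) a
      rw [hLd, Matrix.of_apply, ← hb, hD1] at h1
      exact one_ne_zero h1
  obtain ⟨z, hz, hq⟩ := syz (fun b => Matrix.of fun i j => Bf T (E (t b)) (v' i) (v' j)) L hL (by
    intro z
    have h1 : D (Bf T (cb v' z) (cb v' z) (cb v' z)) = 0 := by
      rw [hX' _ _ _ (cb_mem _ _) (cb_mem _ _) (cb_mem _ _), map_zero]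
    rw [der_Bf D hTk, Bf_comm12 hT (cb v' z) (fun i => D (cb v' z i)),
      Bf_comm23 hT (cb v' z) (cb v' z), Bf_comm12 hT (cb v' z) (fun i => D (cb v' z i))] at h1
    have h2 : (fun m => D (cb v' z m)) = fun m => (∑ i, z i * D (v' i m)) +
        cb v' (fun i => D (z i)) m := by
      funext m
      unfold cb
      rw [map_sum, ← Finset.sum_add_distrib]
      refine Finset.sum_congr rfl fun i _ => ?_
      rw [Derivation.leibniz]
      simp only [smul_eq_mul]
      ring
    rw [h2, Bf_add1, hX' _ _ _ (cb_mem _ _) (cb_mem _ _) (cb_mem _ _)] at h1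
    have h3 : Bf T (fun m => ∑ i, z i * D (v' i m)) (cb v' z) (cb v' z) = 0 := by
      linear_combination (1 / 3 : ℂ) * h1
    rw [Bf_sumE, hsum, Finset.sum_eq_zero (s := Finset.univ) (f := fun j =>
      (∑ i, z i * D (v' i (s j))) * Bf T (E (s j)) (cb v' z) (cb v' z)), zero_add] at h3
    · rw [← h3]
      refine Finset.sum_congr rfl fun b _ => ?_
      rw [Bf_cb hT]
      congr 1
      rw [hLd]
      simp only [Matrix.mulVec, dotProduct, Matrix.of_apply]
      refine Finset.sum_congr rfl fun i _ => ?_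
      ring
    · intro j _
      rw [Finset.sum_eq_zero, zero_mul]
      intro i _
      rw [hw0, mul_zero])
  apply hz
  apply cb_ne hli
  apply smooth_zero hS
  intro y
  have hE : ∀ b, Bf T (E (t b)) (cb v' z) (cb v' z) = 0 := by
    intro b
    rw [Bf_cb hT]
    exact hq b
  have hEs : ∀ j, Bf T (E (s j)) (cb v' z) (cb v' z) = 0 := by
    intro j
    have h1 := hX' _ _ _ (Submodule.subset_span ⟨j, rfl⟩) (cb_mem v' z) (cb_mem v' z)
    rw [Bf_sumE, hsum, Finset.sum_eq_zero (s := Finset.univ) (f := fun b =>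
      v' j (t b) * Bf T (E (t b)) (cb v' z) (cb v' z)), add_zero] at h1
    · simp only [hid] at h1
      rw [Finset.sum_eq_single j] at h1
      · rw [if_pos rfl, one_mul] at h1
        exact h1
      · intro i _ hij
        rw [if_neg hij.symm, zero_mul]
      · intro h
        exact absurd (Finset.mem_univ _) h
    · intro b _
      rw [hE, mul_zero]
  rw [Bf_sumE]
  refine Finset.sum_eq_zero fun m _ => ?_
  rcases ht m with ⟨j, hj⟩ | ⟨b, hb⟩
  · rw [hj, hEs, mul_zero]
  · rw [hb, hE, mul_zero]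

end

end Pool.Agent.Q251.CF
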