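import Mathlib
import Pool.Agent.Q251.CF.Rig

/-! # Project CF, job NET: the net of conics of a plane in a smooth cubic fourfold -/

set_option autoImplicit false

namespace Pool.Agent.Q251.CF

open MvPolynomial Pool.Agent.Y201.C3 Pool.Agent.Y246.C3

noncomputable section

variable {T : Fin 6 → Fin 6 → Fin 6 → ℂ}

/-- constant vectors -/
def cv (v : Fin 6 → ℂ) : Fin 6 → MvPolynomial (Fin 6) ℂ := fun m => C (v m)

/-- the entries of the net -/
def nv (T : Fin 6 → Fin 6 → Fin 6 → ℂ) (v : Fin 3 → Fin 6 → ℂ) :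
    Matrix (Fin 3) (Fin 3) (MvPolynomial (Fin 6) ℂ) :=
  Matrix.of fun i j => Bf T X (cv (v i)) (cv (v j))

lemma ev_Bf (p : Fin 6 → ℂ) (x y z : Fin 6 → MvPolynomial (Fin 6) ℂ) :
    eval p (Bf T x y z) = Bf T (fun i => eval p (x i)) (fun i => eval p (y i))
      (fun i => eval p (z i)) := by
  have h := Bf_map (T := T) (aeval p : MvPolynomial (Fin 6) ℂ →ₐ[ℂ] ℂ) x y z
  rw [aeval_eq_eval] at h
  exact h

lemma ev_nv (v : Fin 3 → Fin 6 → ℂ) (p : Fin 6 → ℂ) (i j : Fin 3) :
    eval p (nv T v i j) = Bf T p (v i) (v j) := by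
  unfold nv
  rw [Matrix.of_apply, ev_Bf]
  simp only [cv, eval_C, eval_X]

lemma ev_det (v : Fin 3 → Fin 6 → ℂ) (p : Fin 6 → ℂ) :
    eval p (nv T v).det = (Matrix.of fun i j => Bf T p (v i) (v j)).det := by
  rw [RingHom.map_det]
  congr 1
  ext i j
  exact ev_nv v p i j

/-- the product rule -/
lemma pd_Bf6 (l : Fin 6) (x y z : Fin 6 → MvPolynomial (Fin 6) ℂ) :
    pderiv l (Bf T x y z) = Bf T (fun i => pderiv l (x i)) y z +
      Bf T x (fun i => pderiv l (y i)) z + Bf T x y (fun i => pderiv l (z i)) := by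
  unfold Bf
  simp only [map_sum, ← Finset.sum_add_distrib]
  refine Finset.sum_congr rfl fun i _ => Finset.sum_congr rfl fun j _ =>
    Finset.sum_congr rfl fun k _ => ?_
  rw [Derivation.leibniz, Derivation.leibniz, Derivation.leibniz, MvPolynomial.algebraMap_eq,
    pderiv_C]
  simp only [smul_eq_mul, mul_zero, add_zero]
  ring

lemma pd_X6 (l : Fin 6) : (fun i => pderiv l (X i : MvPolynomial (Fin 6) ℂ)) = E l := by
  funext i
  unfold E
  rw [pderiv_X]

/-- total degree of the discriminant -/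
lemma deg_det (v : Fin 3 → Fin 6 → ℂ) : (nv T v).det.totalDegree ≤ 3 := by
  have h1 : ∀ i j, (nv T v i j).IsHomogeneous 1 := by
    intro i j
    unfold nv
    rw [Matrix.of_apply]
    unfold Bf
    refine IsHomogeneous.sum _ _ _ fun a _ => IsHomogeneous.sum _ _ _ fun b _ =>
      IsHomogeneous.sum _ _ _ fun c _ => ?_
    have h := (((isHomogeneous_C (Fin 6) (T a b c)).mul (isHomogeneous_X ℂ a)).mul
      (isHomogeneous_C (Fin 6) (v i b))).mul (isHomogeneous_C (Fin 6) (v j c))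
    exact h
  have h2 : (nv T v).det.IsHomogeneous 3 := by
    rw [Matrix.det_apply]
    refine IsHomogeneous.sum _ _ _ fun σ _ => ?_
    have h3 : (∏ i, nv T v (σ i) i).IsHomogeneous (∑ i : Fin 3, 1) :=
      IsHomogeneous.prod _ _ _ fun i _ => h1 _ _
    have h4 : (∑ i : Fin 3, 1) = 3 := by simp
    rw [h4] at h3
    rcases Int.units_eq_one_or (Equiv.Perm.sign σ) with h | h
    · rw [h, one_smul]
      exact h3
    · rw [h, Units.neg_smul, one_smul]
      exact h3.neg
  exact h2.totalDegree_le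

/-- the discriminant does not vanish identically -/
lemma det_ne (hT : SymT T) (hS : SmoothT T) {v : Fin 3 → Fin 6 → ℂ}
    (hv : LinearIndependent ℂ v) : (nv T v).det ≠ 0 := by
  intro h0
  obtain ⟨u, hu0, hu⟩ := Matrix.exists_mulVec_eq_zero_iff.2 h0
  have hN : ∀ i, Bf T X (cv (v i)) (fun m => ∑ j, u j * cv (v j) m) = 0 := by
    intro i
    have h1 := congrFun hu i
    rw [Bf_eq, Bg_sum3 hT]
    rw [Pi.zero_apply] at h1
    rw [← h1]
    unfold Matrix.mulVec dotProduct
    refine Finset.sum_congr rfl fun j _ => ?_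
    rw [Bg_smul3, ← Bf_eq, mul_comm]
    rfl
  have hN2 : ∀ g : Fin 3 → MvPolynomial (Fin 6) ℂ,
      Bf T X (fun m => ∑ j, g j * cv (v j) m) (fun m => ∑ j, u j * cv (v j) m) = 0 := by
    intro g
    rw [Bf_eq, Bg_sum2 hT]
    refine Finset.sum_eq_zero fun j _ => ?_
    rw [Bg_smul2, ← Bf_eq, hN, mul_zero]
  have hpd : ∀ l, (fun m => pderiv l (∑ j, u j * cv (v j) m)) =
      fun m => ∑ j, pderiv l (u j) * cv (v j) m := by
    intro l
    funext m
    rw [map_sum]
    refine Finset.sum_congr rfl fun j _ => ?_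
    rw [Derivation.leibniz]
    simp only [cv, pderiv_C, smul_eq_mul, mul_zero, zero_add]
    ring
  have hE : ∀ l, Bf T (E l) (fun m => ∑ j, u j * cv (v j) m) (fun m => ∑ j, u j * cv (v j) m) = 0 := by
    intro l
    have h1 := congrArg (pderiv l) (hN2 u)
    rw [map_zero, pd_Bf6, hpd, hN2, add_zero,
      Bf_comm23 hT X _ (fun m => ∑ j, pderiv l (u j) * cv (v j) m),
      hN2 (fun j => pderiv l (u j)), add_zero, pd_X6] at h1
    exact h1
  obtain ⟨j, hj⟩ := Function.ne_iff.1 hu0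
  obtain ⟨x, hx⟩ : ∃ x, eval x (u j) ≠ 0 := by
    by_contra hcon
    push Not at hcon
    exact hj (MvPolynomial.funext fun x => by rw [hcon x, Pi.zero_apply, map_zero])
  have h1 : cb v (fun j => eval x (u j)) = 0 := by
    apply smooth_zero hS
    intro y
    rw [Bf_sumE]
    refine Finset.sum_eq_zero fun l _ => ?_
    have h2 := congrArg (eval x) (hE l)
    rw [ev_Bf, map_zero] at h2
    have h3 : (fun i => eval x ((E l : Fin 6 → MvPolynomial (Fin 6) ℂ) i)) = E l := by
      funext i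
      unfold E
      by_cases h : i = l
      · subst h
        simp
      · rw [Pi.single_eq_of_ne h, Pi.single_eq_of_ne h, map_zero]
    have h4 : (fun m => eval x (∑ j, u j * cv (v j) m)) = cb v (fun j => eval x (u j)) := by
      funext m
      simp only [cb, cv, map_sum, map_mul, eval_C]
    rw [h3, h4] at h2
    rw [h2, mul_zero]
  have h2 := cb_ne hv h1
  exact hx (congrFun h2 j)

/-- pairs of indices -/
def pr : Fin 6 → Fin 3 × Fin 3 := ![(0, 0), (0, 1), (0, 2), (1, 1), (1, 2), (2, 2)]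

/-- the discriminant is not a multiple of the cubic form -/
theorem not_dvd_det (hT : SymT T) (hS : SmoothT T) {v : Fin 3 → Fin 6 → ℂ}
    (hv : LinearIndependent ℂ v) : ¬ frm T ∣ (nv T v).det := by
  rintro ⟨Q, hQ⟩
  have hF0 := frm_ne hT hS
  have hD0 := det_ne hT hS hv
  have hQ0 : Q ≠ 0 := by
    rintro rfl
    rw [mul_zero] at hQ
    exact hD0 hQ
  have hdeg := deg_det (T := T) v
  rw [hQ, totalDegree_mul_of_isDomain hF0 hQ0, (frm_hom T).totalDegree hF0] at hdeg
  have hQc : Q.totalDegree = 0 := by omega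
  obtain ⟨c, rfl⟩ : ∃ c, Q = C c := ⟨_, totalDegree_eq_zero_iff_eq_C.1 hQc⟩
  have hc : c ≠ 0 := by
    rintro rfl
    exact hQ0 C_0
  have hev : ∀ x : Fin 6 → ℂ, (Matrix.of fun i j => Bf T x (v i) (v j)).det = c * Bf T x x x := by
    intro x
    rw [← ev_det, hQ, map_mul, eval_C, mul_comm]
    congr 1
    have h := aeval_frmG T x
    rw [aeval_eq_eval] at h
    exact h
  obtain ⟨w, hw, h⟩ := Pool.Agent.H952R2.Sextic.exists_common_zero (ι := Fin 6 ⊕ Fin 3)
    (κ := Fin 6) (by simp)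
    (fun k => rename Sum.inl (nv T v (pr k).1 (pr k).2) -
      X (Sum.inr (pr k).1) * X (Sum.inr (pr k).2)) (by
      intro k
      rw [map_sub, map_mul, eval_X, eval_rename, Pi.zero_apply, zero_mul, sub_zero]
      have h1 : ((0 : Fin 6 ⊕ Fin 3 → ℂ) ∘ Sum.inl) = 0 := rfl
      rw [h1, ev_nv]
      exact Bf_z1 _ _)
  obtain ⟨x, hx⟩ : ∃ x : Fin 6 → ℂ, x = fun i => w (Sum.inl i) := ⟨_, rfl⟩
  obtain ⟨u, hu⟩ : ∃ u : Fin 3 → ℂ, u = fun i => w (Sum.inr i) := ⟨_, rfl⟩
  have h1 : ∀ k, Bf T x (v (pr k).1) (v (pr k).2) = u (pr k).1 * u (pr k).2 := by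
    intro k
    have h2 := h k
    rw [map_sub, map_mul, eval_X, eval_X, eval_rename, ev_nv] at h2
    rw [hx, hu]
    exact sub_eq_zero.1 h2
  have n00 : Bf T x (v 0) (v 0) = u 0 * u 0 := h1 0
  have n01 : Bf T x (v 0) (v 1) = u 0 * u 1 := h1 1
  have n02 : Bf T x (v 0) (v 2) = u 0 * u 2 := h1 2
  have n11 : Bf T x (v 1) (v 1) = u 1 * u 1 := h1 3
  have n12 : Bf T x (v 1) (v 2) = u 1 * u 2 := h1 4
  have n22 : Bf T x (v 2) (v 2) = u 2 * u 2 := h1 5
  have hx0 : x ≠ 0 := by
    intro h0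
    apply hw
    have hz : ∀ y z : Fin 6 → ℂ, Bf T x y z = 0 := by
      intro y z
      rw [h0]
      exact Bf_z1 _ _
    rw [hz] at n00 n11 n22
    funext i
    rcases i with i | i
    · have := congrFun h0 i
      rw [hx] at this
      exact this
    · have h3 : u i = 0 := by
        fin_cases i
        · exact mul_self_eq_zero.1 n00.symm
        · exact mul_self_eq_zero.1 n11.symm
        · exact mul_self_eq_zero.1 n22.symm
      rw [hu] at h3
      exact h3
  apply hx0
  apply smooth_zero hS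
  intro z
  have e1 := hev (fun i => x i + z i)
  have e2 := hev (fun i => x i + -1 * z i)
  have e3 := hev z
  rw [Matrix.det_fin_three] at e1 e2 e3
  simp only [Matrix.of_apply] at e1 e2 e3
  simp only [Bf_add1, Bf_add2 hT, Bf_add3 hT, Bf_smul1, Bf_smul2 hT, Bf_smul3 hT] at e1 e2 e3
  rw [Bf_comm23 hT x (v 1) (v 0), Bf_comm23 hT x (v 2) (v 0), Bf_comm23 hT x (v 2) (v 1),
    Bf_comm23 hT z (v 1) (v 0), Bf_comm23 hT z (v 2) (v 0), Bf_comm23 hT z (v 2) (v 1),
    n00, n01, n02, n11, n12, n22] at e1 e2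
  rw [Bf_comm23 hT z (v 1) (v 0), Bf_comm23 hT z (v 2) (v 0), Bf_comm23 hT z (v 2) (v 1)] at e3
  rw [Bf_comm23 hT x x z, Bf_comm12 hT x z x, Bf_comm12 hT x z z, Bf_comm23 hT z x z] at e1 e2
  have h6 : 6 * c * Bf T z x x = 0 := by
    linear_combination 2 * e3 - e1 + e2
  rcases mul_eq_zero.1 h6 with h7 | h7
  · rcases mul_eq_zero.1 h7 with h8 | h8
    · norm_num at h8
    · exact absurd h8 hc
  · exact h7

end

end Pool.Agent.Q251.CF
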