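import Mathlib
import Pool.Agent.Q251.CF.Prm

/-! # Project CF: very general points of a smooth cubic -/

set_option autoImplicit false

namespace Pool.Agent.Q251.CF

open MvPolynomial Pool.Agent.Y201.C3

noncomputable section

/-- the ring of polynomials on the space -/
abbrev R6 : Type := MvPolynomial (Fin 6) ℂ

/-- the value at `c + t a` -/
def psi (a : Fin 6 → ℂ) : R6 →ₐ[ℂ] Polynomial R6 :=
  aeval fun i => Polynomial.X * algebraMap ℂ (Polynomial R6) (a i) + Polynomial.C (X i)

lemma psi_X (a : Fin 6 → ℂ) (i : Fin 6) : psi a (X i) =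
    Polynomial.X * algebraMap ℂ (Polynomial R6) (a i) + Polynomial.C (X i) := by
  rw [psi, aeval_X]

/-- the extension of `psi a` to an endomorphism of the ring of polynomials in `t` -/
def th (a : Fin 6 → ℂ) : Polynomial R6 →+* Polynomial R6 :=
  Polynomial.eval₂RingHom (psi a : R6 →+* Polynomial R6) Polynomial.X

lemma th_C (a : Fin 6 → ℂ) (r : R6) : th a (Polynomial.C r) = psi a r := by
  simp [th]

lemma th_X (a : Fin 6 → ℂ) : th a Polynomial.X = Polynomial.X := by
  simp [th]

lemma th_alg (a : Fin 6 → ℂ) (c : ℂ) :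
    th a (algebraMap ℂ (Polynomial R6) c) = algebraMap ℂ (Polynomial R6) c := by
  have h : (algebraMap ℂ (Polynomial R6) c) = Polynomial.C (C c) := rfl
  rw [h, th_C]
  exact (psi a).commutes c

lemma th_psi (a : Fin 6 → ℂ) (r : R6) : th a (psi (fun i => -a i) r) = Polynomial.C r := by
  induction r using MvPolynomial.induction_on with
  | C c =>
    have h : psi (fun i => -a i) (C c) = algebraMap ℂ (Polynomial R6) c :=
      (psi fun i => -a i).commutes c
    rw [h, th_alg]
    rfl
  | add f g hf hg => rw [map_add, map_add, hf, hg, Polynomial.C_add]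
  | mul_X f i hf =>
    rw [map_mul, map_mul, hf, psi_X, map_add, map_mul, th_X, th_alg, th_C, psi_X,
      Polynomial.C_mul, map_neg]
    ring

lemma th_th (a : Fin 6 → ℂ) (f : Polynomial R6) : th a (th (fun i => -a i) f) = f := by
  induction f using Polynomial.induction_on' with
  | add f g hf hg => rw [map_add, map_add, hf, hg]
  | monomial n r =>
    rw [← Polynomial.C_mul_X_pow_eq_monomial, map_mul, map_mul, map_pow, map_pow, th_X, th_X,
      th_C, th_psi]

/-- the automorphism -/
def thE (a : Fin 6 → ℂ) : Polynomial R6 ≃+* Polynomial R6 where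
  toFun := th a
  invFun := th fun i => -a i
  left_inv f := by
    have h := th_th (fun i => -a i) f
    have h2 : (fun i => - -a i) = a := by
      funext i
      rw [neg_neg]
    rw [h2] at h
    exact h
  right_inv f := th_th a f
  map_mul' := map_mul _
  map_add' := map_add _

lemma thE_psi (a : Fin 6 → ℂ) (r : R6) : thE (fun i => -a i) (psi a r) = Polynomial.C r := by
  have h := th_psi (fun i => -a i) r
  have h2 : (fun i => - -a i) = a := by
    funext i
    rw [neg_neg]
  rw [h2] at h
  exact h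

lemma psi_prime (a : Fin 6 → ℂ) {F : R6} (hF : Prime F) : Prime (psi a F) := by
  rw [← MulEquiv.prime_iff (thE fun i => -a i).toMulEquiv]
  have h : (thE fun i => -a i).toMulEquiv (psi a F) = Polynomial.C F := thE_psi a F
  rw [h]
  exact Polynomial.prime_C_iff.2 hF

/-- evaluation at the point `c` and the parameter `t` -/
def ev (c : Fin 6 → ℂ) (t : ℂ) : Polynomial R6 →+* ℂ :=
  Polynomial.eval₂RingHom (MvPolynomial.eval c) t

lemma ev_C (c : Fin 6 → ℂ) (t : ℂ) (r : R6) : ev c t (Polynomial.C r) = eval c r := by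
  simp [ev]

lemma ev_psi (a c : Fin 6 → ℂ) (t : ℂ) (r : R6) :
    ev c t (psi a r) = eval (fun i => t * a i + c i) r := by
  induction r using MvPolynomial.induction_on with
  | C z =>
    have h : psi a (C z) = Polynomial.C (C z) := (psi a).commutes z
    rw [h, ev_C, eval_C, eval_C]
  | add f g hf hg => rw [map_add, map_add, hf, hg, map_add]
  | mul_X f i hf =>
    rw [map_mul, map_mul, hf, psi_X, map_mul, eval_X]
    have h : algebraMap ℂ (Polynomial R6) (a i) = Polynomial.C (C (a i)) := rfl
    rw [h, map_add, map_mul, ev_C, ev_C, eval_C, eval_X]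
    have h2 : ev c t Polynomial.X = t := by simp [ev]
    rw [h2]

/-- elimination -/
lemma elim {F : R6} (hF : F.IsHomogeneous 3) (hprime : Prime F) (a : Fin 6 → ℂ)
    (ha : eval a F ≠ 0) :
    (∀ c : Fin 6 → ℂ, ∃ t : ℂ, eval (fun i => t * a i + c i) F = 0) ∧
    ∀ W : R6, ¬ F ∣ W → ∃ r : R6, r ≠ 0 ∧ ∀ (c : Fin 6 → ℂ) (t : ℂ), eval c r ≠ 0 →
      eval (fun i => t * a i + c i) F = 0 → eval (fun i => t * a i + c i) W ≠ 0 := by
  classical
  obtain ⟨u, hu⟩ : ∃ u : Polynomial R6, u = Polynomial.C (C (eval a F)⁻¹) := ⟨_, rfl⟩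
  have huu : IsUnit u := by
    rw [hu]
    exact (isUnit_iff_ne_zero.2 (inv_ne_zero ha)).map (C.comp (RingHom.id ℂ)) |>.map Polynomial.C
  have hexp := expand_line F hF (R := Polynomial R6) Polynomial.X a (fun i => Polynomial.C (X i))
  have hpsi : psi a F = Polynomial.X ^ 3 * algebraMap ℂ (Polynomial R6) (eval a F) +
      Polynomial.X ^ 2 * ∑ l, Polynomial.C (X l) *
        algebraMap ℂ (Polynomial R6) (eval a (pderiv l F)) +
      Polynomial.X * ∑ l, algebraMap ℂ (Polynomial R6) (a l) *
        aeval (fun i => Polynomial.C (X i)) (pderiv l F) +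
      aeval (fun i => Polynomial.C (X i)) F := hexp
  have hC : ∀ p : R6, aeval (fun i => (Polynomial.C (X i) : Polynomial R6)) p =
      Polynomial.C p := by
    intro p
    induction p using MvPolynomial.induction_on with
    | C z =>
      rw [aeval_C]
      rfl
    | add f g hf hg => rw [map_add, hf, hg, Polynomial.C_add]
    | mul_X f i hf => rw [map_mul, hf, aeval_X, Polynomial.C_mul]
  have hal : ∀ z : ℂ, algebraMap ℂ (Polynomial R6) z = Polynomial.C (C z) := fun _ => rfl
  obtain ⟨g, hg⟩ : ∃ g : Polynomial R6, g = u * psi a F := ⟨_, rfl⟩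
  obtain ⟨c2, c1, c0, hg3⟩ : ∃ c2 c1 c0 : R6, g = Polynomial.X ^ 3 +
      (Polynomial.C c2 * Polynomial.X ^ 2 + Polynomial.C c1 * Polynomial.X + Polynomial.C c0) := by
    refine ⟨C (eval a F)⁻¹ * ∑ l, X l * C (eval a (pderiv l F)),
      C (eval a F)⁻¹ * ∑ l, C (a l) * pderiv l F, C (eval a F)⁻¹ * F, ?_⟩
    rw [hg, hu, hpsi]
    simp only [hC, hal, Polynomial.C_mul, map_sum]
    have h1 : (Polynomial.C (C (eval a F)⁻¹) : Polynomial R6) * Polynomial.C (C (eval a F)) = 1 := by
      rw [← Polynomial.C_mul, ← C_mul, inv_mul_cancel₀ ha, C_1, Polynomial.C_1]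
    linear_combination Polynomial.X ^ 3 * h1
  have hmonic : g.Monic := by
    rw [hg3]
    exact Polynomial.monic_X_pow_add Polynomial.degree_quadratic_lt
  have hdeg : g.natDegree = 3 := by
    rw [hg3]
    exact Polynomial.natDegree_eq_of_degree_eq_some
      ((Polynomial.degree_add_eq_left_of_degree_lt (by
        rw [Polynomial.degree_X_pow]
        exact Polynomial.degree_quadratic_lt)).trans (Polynomial.degree_X_pow 3))
  have hgp : Prime g := by
    have h1 : Associated (psi a F) g := by
      obtain ⟨v, hv⟩ := huu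
      exact ⟨v, by rw [hg, ← hv, mul_comm]⟩
    exact h1.prime (psi_prime a hprime)
  have hev : ∀ (c : Fin 6 → ℂ) (t : ℂ), ev c t g = 0 ↔
      eval (fun i => t * a i + c i) F = 0 := by
    intro c t
    rw [hg, map_mul, ev_psi, hu, ev_C, eval_C, mul_eq_zero]
    exact ⟨fun h => h.resolve_left (inv_ne_zero ha), Or.inr⟩
  refine ⟨?_, ?_⟩
  · intro c
    have h1 : (g.map (MvPolynomial.eval c)).degree ≠ 0 := by
      intro h2
      have h3 := hmonic.natDegree_map (MvPolynomial.eval c)
      have h4 : (g.map (MvPolynomial.eval c)).natDegree = 0 := by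
        rw [Polynomial.natDegree, h2]
        rfl
      rw [hdeg, h4] at h3
      omega
    obtain ⟨t, ht⟩ := IsAlgClosed.exists_root _ h1
    refine ⟨t, (hev c t).1 ?_⟩
    rw [Polynomial.IsRoot.def, Polynomial.eval_map] at ht
    exact ht
  · intro W hW
    let S := AdjoinRoot g
    have hdom : IsDomain S := AdjoinRoot.isDomain_of_prime hgp
    have hfin : Module.Finite R6 S := hmonic.finite_adjoinRoot
    have hint : Algebra.IsIntegral R6 S := Algebra.IsIntegral.of_finite R6 S
    have hW0 : AdjoinRoot.mk g (psi a W) ≠ 0 := by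
      intro h0
      rw [AdjoinRoot.mk_eq_zero] at h0
      obtain ⟨Q, hQ⟩ := h0
      apply hW
      have h1 := congrArg (Polynomial.eval 0) hQ
      have h2 : ∀ p : R6, Polynomial.eval 0 (psi a p) = p := by
        intro p
        induction p using MvPolynomial.induction_on with
        | C z =>
          have h : psi a (C z) = Polynomial.C (C z) := (psi a).commutes z
          rw [h, Polynomial.eval_C]
        | add f g hf hg => rw [map_add, Polynomial.eval_add, hf, hg]
        | mul_X f i hf =>
          rw [map_mul, Polynomial.eval_mul, hf, psi_X, Polynomial.eval_add, Polynomial.eval_mul,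
            Polynomial.eval_X, zero_mul, zero_add, Polynomial.eval_C]
      rw [h2, hg, Polynomial.eval_mul, Polynomial.eval_mul, h2] at h1
      exact ⟨Polynomial.eval 0 u * Polynomial.eval 0 Q, by rw [h1]; ring⟩
    have hne := Ideal.comap_ne_bot_of_integral_mem (R := R6)
      (I := Ideal.span {AdjoinRoot.mk g (psi a W)}) hW0 (Ideal.mem_span_singleton_self _)
      (Algebra.IsIntegral.isIntegral _)
    obtain ⟨r, hr, hr0⟩ := Submodule.exists_mem_ne_zero_of_ne_bot hne
    refine ⟨r, hr0, ?_⟩
    intro c t hrc hFc hWc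
    apply hrc
    rw [Ideal.mem_comap, Ideal.mem_span_singleton] at hr
    obtain ⟨y, hy⟩ := hr
    obtain ⟨Q, rfl⟩ := AdjoinRoot.mk_surjective y
    have h1 : algebraMap R6 S r = AdjoinRoot.mk g (Polynomial.C r) := rfl
    rw [h1, ← map_mul, ← sub_eq_zero, ← map_sub, AdjoinRoot.mk_eq_zero] at hy
    obtain ⟨E, hE⟩ := hy
    have h2 := congrArg (ev c t) hE
    rw [map_sub, map_mul, map_mul, ev_C, ev_psi, hWc, (hev c t).2 hFc] at h2
    linear_combination h2

/-- a point of the cubic outside of countably many hypersurfaces -/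
theorem pts {T : Fin 6 → Fin 6 → Fin 6 → ℂ} (hT : SymT T) (hS : SmoothT T) {ι : Type}
    [Countable ι] (W : ι → R6) (hW : ∀ i, ¬ frm T ∣ W i) :
    ∃ p : Fin 6 → ℂ, eval p (frm T) = 0 ∧ ∀ i, eval p (W i) ≠ 0 := by
  obtain ⟨a, ha⟩ : ∃ a, eval a (frm T) ≠ 0 := by
    by_contra hcon
    push Not at hcon
    exact frm_ne hT hS (MvPolynomial.funext fun x => by rw [hcon x, map_zero])
  obtain ⟨h1, h2⟩ := elim (frm_hom T) (frm_prime hT hS) a ha
  choose r hr0 hr using fun i => h2 (W i) (hW i)
  obtain ⟨c, hc⟩ := avoid_countable r hr0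
  obtain ⟨t, ht⟩ := h1 c
  exact ⟨fun i => t * a i + c i, ht, fun i => hr i c t (hc i) ht⟩

end

end Pool.Agent.Q251.CF
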