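import Mathlib
import Pool.Agent.Q251.CF.Net
import Pool.Agent.Q251.CF.Pts
import Pool.Agent.Q251.CF.Inv

/-! # Project CF, job AVOID: a line on a smooth cubic fourfold which avoids all planes -/

set_option autoImplicit false

namespace Pool.Agent.Q251.CF

open MvPolynomial Pool.Agent.Y201.C3 Pool.Agent.Y246.C3

noncomputable section

variable {T : Fin 6 → Fin 6 → Fin 6 → ℂ}

/-- a countable algebraically closed field which contains the coefficients -/
lemma exists_field (T : Fin 6 → Fin 6 → Fin 6 → ℂ) :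
    ∃ k : Subfield ℂ, IsAlgClosed k ∧ Countable k ∧ ∀ i j l, T i j l ∈ k := by
  let S : Set ℂ := Set.range fun t : Fin 6 × Fin 6 × Fin 6 => T t.1 t.2.1 t.2.2
  let k0 : Subfield ℂ := Subfield.closure S
  have hk0 : Cardinal.mk k0 ≤ Cardinal.aleph0 := by
    refine (Subfield.cardinalMk_closure_le_max S).trans ?_
    rw [max_le_iff]
    exact ⟨Cardinal.mk_le_aleph0_iff.2 (Set.countable_range _), le_rfl⟩
  have h1 : Cardinal.mk { x : ℂ // IsAlgebraic k0 x } ≤ Cardinal.aleph0 := by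
    refine (Algebraic.cardinalMk_le_max k0 ℂ).trans ?_
    rw [max_le_iff]
    exact ⟨hk0, le_rfl⟩
  have hc : IsAlgClosed (algebraicClosure k0 ℂ) :=
    (algebraicClosure.isAlgClosure k0 ℂ).isAlgClosed
  refine ⟨(algebraicClosure k0 ℂ).toSubfield, hc, ?_, ?_⟩
  · have h2 : Countable { x : ℂ // IsAlgebraic k0 x } := Cardinal.mk_le_aleph0_iff.1 h1
    refine Function.Injective.countable (β := { x : ℂ // IsAlgebraic k0 x })
      (f := fun x => ⟨x.1, mem_algebraicClosure_iff.1 x.2⟩) ?_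
    intro x y hxy
    exact Subtype.ext (Subtype.mk.inj hxy)
  · intro i j l
    have h3 : T i j l ∈ k0 := Subfield.subset_closure ⟨(i, j, l), rfl⟩
    exact (algebraicClosure k0 ℂ).algebraMap_mem ⟨_, h3⟩

/-- the cross product -/
def cr {R : Type} [CommRing R] (a b : Fin 3 → R) : Fin 3 → R :=
  ![a 1 * b 2 - a 2 * b 1, a 2 * b 0 - a 0 * b 2, a 0 * b 1 - a 1 * b 0]

/-- a nondegenerate quadratic form does not vanish on a plane -/
lemma cr_ne (N : Matrix (Fin 3) (Fin 3) ℂ) (hN : N.transpose = N) (hd : N.det ≠ 0)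
    (a : Fin 3 → ℂ) (ha : a ≠ 0) : ∃ b : Fin 3 → ℂ, qm N (cr a b) ≠ 0 := by
  by_contra hcon
  push Not at hcon
  have s1 : N 1 0 = N 0 1 := congrFun (congrFun hN 0) 1
  have s2 : N 2 0 = N 0 2 := congrFun (congrFun hN 0) 2
  have s3 : N 2 1 = N 1 2 := congrFun (congrFun hN 1) 2
  have h0 := hcon ![1, 0, 0]
  have h1 := hcon ![0, 1, 0]
  have h2 := hcon ![0, 0, 1]
  have h3 := hcon ![1, 1, 0]
  have h4 := hcon ![1, 0, 1]
  have h5 := hcon ![0, 1, 1]
  rw [qm_eq] at h0 h1 h2 h3 h4 h5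
  simp only [cr, Matrix.cons_val_zero, Matrix.cons_val_one, Matrix.cons_val] at h0 h1 h2 h3 h4 h5
  rw [s1, s2, s3] at h0 h1 h2 h3 h4 h5
  rw [Matrix.det_fin_three, s1, s2, s3] at hd
  apply hd
  have c0 : a 0 ^ 4 * (N 0 0 * N 1 1 * N 2 2 - N 0 0 * N 1 2 * N 1 2 - N 0 1 * N 0 1 * N 2 2 +
      N 0 1 * N 1 2 * N 0 2 + N 0 2 * N 0 1 * N 1 2 - N 0 2 * N 1 1 * N 0 2) = 0 := by
    linear_combination ((N 0 0 * a 1 * a 1 + N 0 1 * a 1 * (-a 0) + N 0 1 * (-a 0) * a 1 + N 1 1 * (-a 0) * (-a 0)) * N 0 0 -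
      (N 0 0 * a 1 * 1 + N 0 1 * (-a 0) * 1) ^ 2) * h1 +
      (2 * (N 0 0 * (-a 2) * 1 + N 0 2 * a 0 * 1) * (N 0 0 * a 1 * 1 + N 0 1 * (-a 0) * 1) -
      (N 0 0 * (-a 2) * a 1 + N 0 1 * (-a 2) * (-a 0) + N 0 2 * a 0 * a 1 + N 1 2 * a 0 * (-a 0)) * N 0 0) * ((h5 - h1 - h2) / 2) -
      (N 0 0 * (-a 2) * 1 + N 0 2 * a 0 * 1) ^ 2 * h2
  have c1 : a 1 ^ 4 * (N 0 0 * N 1 1 * N 2 2 - N 0 0 * N 1 2 * N 1 2 - N 0 1 * N 0 1 * N 2 2 +
      N 0 1 * N 1 2 * N 0 2 + N 0 2 * N 0 1 * N 1 2 - N 0 2 * N 1 1 * N 0 2) = 0 := by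
    linear_combination ((N 1 1 * a 2 * a 2 + N 1 2 * a 2 * (-a 1) + N 1 2 * (-a 1) * a 2 + N 2 2 * (-a 1) * (-a 1)) * N 1 1 -
      (N 1 1 * a 2 * 1 + N 1 2 * (-a 1) * 1) ^ 2) * h2 +
      (2 * (N 0 1 * a 1 * 1 + N 1 1 * (-a 0) * 1) * (N 1 1 * a 2 * 1 + N 1 2 * (-a 1) * 1) -
      (N 0 1 * a 1 * a 2 + N 0 2 * a 1 * (-a 1) + N 1 1 * (-a 0) * a 2 + N 1 2 * (-a 0) * (-a 1)) * N 1 1) * ((h4 - h2 - h0) / 2) -
      (N 0 1 * a 1 * 1 + N 1 1 * (-a 0) * 1) ^ 2 * h0
  have c2 : a 2 ^ 4 * (N 0 0 * N 1 1 * N 2 2 - N 0 0 * N 1 2 * N 1 2 - N 0 1 * N 0 1 * N 2 2 +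
      N 0 1 * N 1 2 * N 0 2 + N 0 2 * N 0 1 * N 1 2 - N 0 2 * N 1 1 * N 0 2) = 0 := by
    linear_combination ((N 0 0 * (-a 2) * (-a 2) + N 0 2 * (-a 2) * a 0 + N 0 2 * a 0 * (-a 2) + N 2 2 * a 0 * a 0) * N 2 2 -
      (N 0 2 * (-a 2) * 1 + N 2 2 * a 0 * 1) ^ 2) * h0 +
      (2 * (N 1 2 * a 2 * 1 + N 2 2 * (-a 1) * 1) * (N 0 2 * (-a 2) * 1 + N 2 2 * a 0 * 1) -
      (N 0 1 * a 2 * (-a 2) + N 1 2 * a 2 * a 0 + N 0 2 * (-a 1) * (-a 2) + N 2 2 * (-a 1) * a 0) * N 2 2) * ((h3 - h0 - h1) / 2) -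
      (N 1 2 * a 2 * 1 + N 2 2 * (-a 1) * 1) ^ 2 * h1
  obtain ⟨i, hi⟩ := Function.ne_iff.1 ha
  rw [Pi.zero_apply] at hi
  fin_cases i
  · exact (mul_eq_zero.1 c0).resolve_left (pow_ne_zero 4 hi)
  · exact (mul_eq_zero.1 c1).resolve_left (pow_ne_zero 4 hi)
  · exact (mul_eq_zero.1 c2).resolve_left (pow_ne_zero 4 hi)

lemma frm_eval (x : Fin 6 → ℂ) : eval x (frm T) = Bf T x x x := by
  have h := aeval_frmG T x
  rw [aeval_eq_eval] at h
  exact h

/-- a linear form which vanishes at `p` -/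
def lm (p c x : Fin 6 → ℂ) : ℂ := ∑ m, c m * (x m - x 0 / p 0 * p m)

/-- the polynomial of the linear form -/
def lmp (p x : Fin 6 → ℂ) : MvPolynomial (Fin 6) ℂ := ∑ m, X m * C (x m - x 0 / p 0 * p m)

lemma ev_lmp (p x c : Fin 6 → ℂ) : eval c (lmp p x) = lm p c x := by
  simp only [lmp, lm, map_sum, map_mul, eval_X, eval_C]

lemma lm_self {p : Fin 6 → ℂ} (hp : p 0 ≠ 0) (c : Fin 6 → ℂ) : lm p c p = 0 := by
  unfold lm
  refine Finset.sum_eq_zero fun m _ => ?_
  rw [div_self hp]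
  ring

lemma lm_add (p c x y : Fin 6 → ℂ) (a b : ℂ) :
    lm p c (fun i => a * x i + b * y i) = a * lm p c x + b * lm p c y := by
  unfold lm
  rw [Finset.mul_sum, Finset.mul_sum, ← Finset.sum_add_distrib]
  refine Finset.sum_congr rfl fun m _ => ?_
  ring

lemma lm_cb (p c : Fin 6 → ℂ) (v : Fin 3 → Fin 6 → ℂ) (z : Fin 3 → ℂ) :
    lm p c (cb v z) = ∑ i, z i * lm p c (v i) := by
  unfold lm cb
  simp only [Finset.mul_sum]
  rw [Finset.sum_comm]
  refine Finset.sum_congr rfl fun m _ => ?_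
  rw [Finset.sum_div, Finset.sum_mul, ← Finset.sum_sub_distrib, Finset.mul_sum]
  refine Finset.sum_congr rfl fun i _ => ?_
  ring

/-- the linear forms take all values on the plane -/
lemma lm_surj (hT : SymT T) {v : Fin 3 → Fin 6 → ℂ} (hv : LinearIndependent ℂ v)
    (hX : ∀ i j l, Bf T (v i) (v j) (v l) = 0) {p : Fin 6 → ℂ}
    (hpv : Bf T p p (v 0) ≠ 0) (μ : Fin 3 → ℂ) : ∃ c, ∀ i, lm p c (v i) = μ i := by
  have hli : LinearIndependent ℂ (fun (i : Fin 3) (m : Fin 6) => v i m - v i 0 / p 0 * p m) := by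
    rw [Fintype.linearIndependent_iff]
    intro g hg
    have h1 : ∀ m, cb v g m = cb v g 0 / p 0 * p m := by
      intro m
      have h2 := congrFun hg m
      rw [Finset.sum_apply, Pi.zero_apply] at h2
      simp only [Pi.smul_apply, smul_eq_mul, mul_sub] at h2
      rw [Finset.sum_sub_distrib, sub_eq_zero] at h2
      unfold cb
      rw [h2, Finset.sum_div, Finset.sum_mul]
      refine Finset.sum_congr rfl fun i _ => ?_
      ring
    have h3 : cb v g 0 / p 0 = 0 := by
      by_contra hne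
      apply hpv
      have h4 : p = cb v (fun i => (cb v g 0 / p 0)⁻¹ * g i) := by
        funext m
        have h5 : cb v (fun i => (cb v g 0 / p 0)⁻¹ * g i) m =
            (cb v g 0 / p 0)⁻¹ * cb v g m := by
          unfold cb
          rw [Finset.mul_sum]
          refine Finset.sum_congr rfl fun i _ => ?_
          ring
        rw [h5, h1 m, ← mul_assoc, inv_mul_cancel₀ hne, one_mul]
      have h6 : p ∈ Submodule.span ℂ (Set.range v) := by
        rw [h4]
        exact cb_mem _ _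
      exact span_zero hT hX h6 h6 (Submodule.subset_span ⟨0, rfl⟩)
    have h7 : cb v g = 0 := by
      funext m
      rw [h1 m, h3, zero_mul]
      rfl
    exact fun i => congrFun (cb_ne hv h7) i
  obtain ⟨s, hs, hd⟩ := exists_minor hli
  obtain ⟨M, hM⟩ : ∃ M : Matrix (Fin 3) (Fin 3) ℂ, M =
    Matrix.of fun i j => v i (s j) - v i 0 / p 0 * p (s j) := ⟨_, rfl⟩
  rw [← hM] at hd
  have h2 : M * M⁻¹ = 1 := Matrix.mul_nonsing_inv M (isUnit_iff_ne_zero.2 hd)
  refine ⟨fun m => ∑ j, M⁻¹.mulVec μ j * (if m = s j then 1 else 0), fun i => ?_⟩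
  have h3 : lm p (fun m => ∑ j, M⁻¹.mulVec μ j * (if m = s j then 1 else 0)) (v i) =
      M.mulVec (M⁻¹.mulVec μ) i := by
    unfold lm
    simp only [Finset.sum_mul]
    rw [Finset.sum_comm]
    simp only [Matrix.mulVec, dotProduct]
    refine Finset.sum_congr rfl fun j _ => ?_
    rw [Finset.sum_eq_single (s j)]
    · rw [if_pos rfl, hM, Matrix.of_apply]
      ring
    · intro m _ hm
      rw [if_neg hm]
      ring
    · intro h
      exact absurd (Finset.mem_univ _) h
  rw [h3, Matrix.mulVec_mulVec, h2, Matrix.one_mulVec]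

/-- the resultant -/
def rv (T : Fin 6 → Fin 6 → Fin 6 → ℂ) (p : Fin 6 → ℂ) (v : Fin 3 → Fin 6 → ℂ) :
    MvPolynomial (Fin 6) ℂ :=
  ∑ i, ∑ j, C (Bf T p (v i) (v j)) *
    cr (fun i => C (Bf T p p (v i))) (fun i => lmp p (v i)) i *
    cr (fun i => C (Bf T p p (v i))) (fun i => lmp p (v i)) j

lemma ev_rv (p : Fin 6 → ℂ) (v : Fin 3 → Fin 6 → ℂ) (c : Fin 6 → ℂ) :
    eval c (rv T p v) = qm (Matrix.of fun i j => Bf T p (v i) (v j))
      (cr (fun i => Bf T p p (v i)) (fun i => lm p c (v i))) := by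
  have h : ∀ i, eval c (cr (fun i => C (Bf T p p (v i))) (fun i => lmp p (v i)) i) =
      cr (fun i => Bf T p p (v i)) (fun i => lm p c (v i)) i := by
    intro i
    fin_cases i <;> simp [cr, ev_lmp]
  simp only [rv, map_sum, map_mul, eval_C, h, qm, dotProduct, Matrix.mulVec, Matrix.of_apply,
    Finset.mul_sum]
  refine Finset.sum_congr rfl fun i _ => Finset.sum_congr rfl fun j _ => ?_
  ring

lemma rv_ne (hT : SymT T) {v : Fin 3 → Fin 6 → ℂ} (hv : LinearIndependent ℂ v)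
    (hX : ∀ i j l, Bf T (v i) (v j) (v l) = 0) {p : Fin 6 → ℂ}
    (hpv : Bf T p p (v 0) ≠ 0) (hpd : (Matrix.of fun i j => Bf T p (v i) (v j)).det ≠ 0) :
    rv T p v ≠ 0 := by
  intro h0
  obtain ⟨b, hb⟩ := cr_ne (Matrix.of fun i j => Bf T p (v i) (v j)) (by
    ext i j
    rw [Matrix.transpose_apply, Matrix.of_apply, Matrix.of_apply]
    exact Bf_comm23 hT _ _ _) hpd (fun i => Bf T p p (v i)) (by
    intro h
    exact hpv (congrFun h 0))
  obtain ⟨c, hc⟩ := lm_surj hT hv hX hpv b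
  apply hb
  have h1 : b = fun i => lm p c (v i) := funext fun i => (hc i).symm
  rw [h1, ← ev_rv, h0, map_zero]

/-- a form of small degree is not divisible by the cubic form -/
lemma not_dvd_low (hT : SymT T) (hS : SmoothT T) {P : MvPolynomial (Fin 6) ℂ} (h0 : P ≠ 0)
    (hd : P.totalDegree ≤ 2) : ¬ frm T ∣ P := by
  rintro ⟨B, rfl⟩
  have hF0 := frm_ne hT hS
  have hB0 : B ≠ 0 := right_ne_zero_of_mul h0
  rw [totalDegree_mul_of_isDomain hF0 hB0, (frm_hom T).totalDegree hF0] at hd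
  omega

/-- the polar form of a vector -/
def pf (T : Fin 6 → Fin 6 → Fin 6 → ℂ) (v : Fin 6 → ℂ) : MvPolynomial (Fin 6) ℂ :=
  Bf T X X (cv v)

lemma ev_pf (v p : Fin 6 → ℂ) : eval p (pf T v) = Bf T p p v := by
  unfold pf
  rw [ev_Bf]
  simp only [cv, eval_C, eval_X]

lemma not_dvd_pf (hT : SymT T) (hS : SmoothT T) {v : Fin 6 → ℂ} (hv : v ≠ 0) :
    ¬ frm T ∣ pf T v := by
  apply not_dvd_low hT hS
  · intro h0
    have h1 : ∀ x, Bf T x x v = 0 := by
      intro x
      rw [← ev_pf, h0, map_zero]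
    apply hv
    apply smooth_zero hS
    intro y
    have h2 := h1 (fun i => y i + v i)
    have h3 := h1 y
    have h4 := h1 v
    rw [Bf_add1, Bf_add2 hT, Bf_add2 hT, h3, h4, Bf_comm12 hT v y v] at h2
    linear_combination (1 / 2 : ℂ) * h2
  · have h : (pf T v).IsHomogeneous 2 := by
      unfold pf Bf
      refine IsHomogeneous.sum _ _ _ fun a _ => IsHomogeneous.sum _ _ _ fun b _ =>
        IsHomogeneous.sum _ _ _ fun c _ => ?_
      have h := (((isHomogeneous_C (Fin 6) (T a b c)).mul (isHomogeneous_X ℂ a)).mul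
        (isHomogeneous_X ℂ b)).mul (isHomogeneous_C (Fin 6) (v c))
      exact h
    exact h.totalDegree_le

/-- a line through a very general point avoids all planes -/
theorem avoid : Pool.Agent.Y201.LI.S_AVOID := by
  intro T hT hS e W _ hW
  obtain ⟨k, hkc, hkcount, hkT⟩ := exists_field T
  let ι : Type := {v : Fin 3 → Fin 6 → k // LinearIndependent ℂ (fun i m => (v i m : ℂ)) ∧
    ∀ i j l, Bf T (fun m => (v i m : ℂ)) (fun m => (v j m : ℂ)) (fun m => (v l m : ℂ)) = 0}
  let vv : ι → Fin 3 → Fin 6 → ℂ := fun v i m => (v.1 i m : ℂ)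
  have hv1 : ∀ v : ι, LinearIndependent ℂ (vv v) := fun v => v.2.1
  have hv2 : ∀ v : ι, ∀ i j l, Bf T (vv v i) (vv v j) (vv v l) = 0 := fun v => v.2.2
  have hιc : Countable ι := Subtype.countable
  obtain ⟨p, hp, hpW⟩ := pts hT hS (ι := Option (Option (ι ⊕ ι)))
    (fun o => match o with
      | none => W
      | some none => X 0
      | some (some (Sum.inl v)) => (nv T (vv v)).det
      | some (some (Sum.inr v)) => pf T (vv v 0)) (by
    rintro (_ | _ | v | v)
    · exact hW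
    · exact not_dvd_X (frm_hom T) (frm_ne hT hS) 0
    · exact not_dvd_det hT hS (hv1 v)
    · exact not_dvd_pf hT hS ((hv1 v).ne_zero 0))
  have hpW0 : eval p W ≠ 0 := hpW none
  have hp0 : p 0 ≠ 0 := by
    have h := hpW (some none)
    change eval p (X 0) ≠ 0 at h
    rwa [eval_X] at h
  have hpd : ∀ v : ι, (Matrix.of fun i j => Bf T p (vv v i) (vv v j)).det ≠ 0 := by
    intro v
    have h := hpW (some (some (Sum.inl v)))
    change eval p (nv T (vv v)).det ≠ 0 at h
    rwa [ev_det] at h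
  have hpv : ∀ v : ι, Bf T p p (vv v 0) ≠ 0 := by
    intro v
    have h := hpW (some (some (Sum.inr v)))
    change eval p (pf T (vv v 0)) ≠ 0 at h
    rwa [ev_pf] at h
  rw [frm_eval] at hp
  obtain ⟨c, hc⟩ := avoid_countable (fun v : ι => rv T p (vv v))
    (fun v => rv_ne hT (hv1 v) (hv2 v) (hpv v) (hpd v))
  obtain ⟨q, hq0, hq⟩ := Pool.Agent.H952R2.Sextic.exists_common_zero (ι := Fin 6)
    (κ := Fin 5) (by simp)
    ![Bf T (cv p) (cv p) X, Bf T (cv p) X X, frm T,
      ∑ m, C (c m) * (X m - X 0 * C (p m / p 0)), X 0] (by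
      intro i
      fin_cases i
      · change eval 0 (Bf T (cv p) (cv p) X) = 0
        rw [ev_Bf]
        simp only [eval_X]
        rw [Bf_comm23 hT, Bf_comm12 hT]
        exact Bf_z1 _ _
      · change eval 0 (Bf T (cv p) X X) = 0
        rw [ev_Bf]
        simp only [eval_X]
        rw [Bf_comm12 hT]
        exact Bf_z1 _ _
      · change eval 0 (frm T) = 0
        rw [frm_eval]
        exact Bf_z1 _ _
      · change eval 0 (∑ m, C (c m) * (X m - X 0 * C (p m / p 0))) = 0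
        rw [map_sum]
        refine Finset.sum_eq_zero fun m _ => ?_
        rw [map_mul, map_sub, map_mul, eval_X, eval_X]
        simp
      · change eval 0 (X 0) = (0 : ℂ)
        rw [eval_X]
        rfl)
  have q1 : Bf T p p q = 0 := by
    have h := hq 0
    change eval q (Bf T (cv p) (cv p) X) = 0 at h
    rw [ev_Bf] at h
    simp only [eval_X, cv, eval_C] at h
    exact h
  have q2 : Bf T p q q = 0 := by
    have h := hq 1
    change eval q (Bf T (cv p) X X) = 0 at h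
    rw [ev_Bf] at h
    simp only [eval_X, cv, eval_C] at h
    exact h
  have q3 : Bf T q q q = 0 := by
    have h := hq 2
    change eval q (frm T) = 0 at h
    rwa [frm_eval] at h
  have q4 : lm p c q = 0 := by
    have h := hq 3
    change eval q (∑ m, C (c m) * (X m - X 0 * C (p m / p 0))) = 0 at h
    rw [map_sum] at h
    rw [← h]
    unfold lm
    refine Finset.sum_congr rfl fun m _ => ?_
    rw [map_mul, map_sub, map_mul, eval_X, eval_X, eval_C, eval_C]
    ring
  have q5 : q 0 = 0 := by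
    have h := hq 4
    change eval q (X 0) = 0 at h
    rwa [eval_X] at h
  have hli : LinearIndependent ℂ ![p, q] := by
    rw [LinearIndependent.pair_iff]
    intro a b hab
    have h0 := congrFun hab 0
    simp only [Pi.add_apply, Pi.smul_apply, smul_eq_mul, Pi.zero_apply, q5, mul_zero,
      add_zero] at h0
    have ha : a = 0 := (mul_eq_zero.1 h0).resolve_right hp0
    refine ⟨ha, ?_⟩
    rw [ha, zero_smul, zero_add] at hab
    exact (smul_eq_zero.1 hab).resolve_right hq0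
  refine ⟨p, q, hli, ?_, hpW0, ?_⟩
  · have e1 : Bf T p q p = 0 := by rw [Bf_comm23 hT]; exact q1
    have e2 : Bf T q p p = 0 := by rw [Bf_comm12 hT]; exact e1
    have e3 : Bf T q p q = 0 := by rw [Bf_comm12 hT]; exact q2
    have e4 : Bf T q q p = 0 := by rw [Bf_comm23 hT]; exact e3
    intro i j l
    fin_cases i <;> fin_cases j <;> fin_cases l
    · exact hp
    · exact q1
    · exact e1
    · exact q2
    · exact e2
    · exact e3
    · exact e4
    · exact q3
  · intro v hv hvX a b hab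
    obtain ⟨v', hv'k, hv'li, hspan⟩ := rig k hkc T hT hS hkT v hv hvX
    rw [← hspan] at hab
    obtain ⟨z, hz⟩ := mem_cb hab
    obtain ⟨w, hw⟩ : ∃ w : ι, vv w = v' := by
      refine ⟨⟨fun i m => ⟨v' i m, hv'k i m⟩, hv'li, ?_⟩, rfl⟩
      intro i j l
      have h : ∀ i, v' i ∈ Submodule.span ℂ (Set.range v) := by
        intro i
        rw [← hspan]
        exact Submodule.subset_span ⟨i, rfl⟩
      exact span_zero hT hvX (h i) (h j) (h l)
    have hr : cb v' z = fun i => a * p i + b * q i := by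
      rw [← hz]
      rfl
    have hcw := hc w
    rw [ev_rv, hw] at hcw
    have f1 : ∑ i, z i * Bf T p p (v' i) = 0 := by
      have h1 : Bf T p p (cb v' z) = ∑ i, z i * Bf T p p (v' i) := by
        rw [Bf_comm23 hT, Bf_comm12 hT, Bf_cb1]
        refine Finset.sum_congr rfl fun i _ => ?_
        rw [Bf_comm12 hT (v' i), Bf_comm23 hT p]
      rw [← h1, hr, Bf_add3 hT, Bf_smul3 hT, Bf_smul3 hT, hp, q1]
      ring
    have f2 : ∑ i, z i * lm p c (v' i) = 0 := by
      rw [← lm_cb, hr, lm_add, lm_self hp0, q4]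
      ring
    have f3 : qm (Matrix.of fun i j => Bf T p (v' i) (v' j)) z = 0 := by
      rw [← Bf_cb hT, hr]
      simp only [Bf_add2 hT, Bf_add3 hT, Bf_smul2 hT, Bf_smul3 hT]
      rw [hp, q1, q2, Bf_comm23 hT p q p, q1]
      ring
    have hz0 : z = 0 := by
      obtain ⟨y, hy⟩ : ∃ y, y = cr (fun i => Bf T p p (v' i)) (fun i => lm p c (v' i)) := ⟨_, rfl⟩
      rw [← hy] at hcw
      have hpar : ∀ i j, z i * y j = z j * y i := by
        rw [Fin.sum_univ_three] at f1 f2
        have y0 : y 0 = Bf T p p (v' 1) * lm p c (v' 2) - Bf T p p (v' 2) * lm p c (v' 1) := by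
          rw [hy]; rfl
        have y1 : y 1 = Bf T p p (v' 2) * lm p c (v' 0) - Bf T p p (v' 0) * lm p c (v' 2) := by
          rw [hy]; rfl
        have y2 : y 2 = Bf T p p (v' 0) * lm p c (v' 1) - Bf T p p (v' 1) * lm p c (v' 0) := by
          rw [hy]; rfl
        have p01 : z 0 * y 1 = z 1 * y 0 := by
          rw [y0, y1]
          linear_combination Bf T p p (v' 2) * f2 - lm p c (v' 2) * f1
        have p02 : z 0 * y 2 = z 2 * y 0 := by
          rw [y0, y2]
          linear_combination lm p c (v' 1) * f1 - Bf T p p (v' 1) * f2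
        have p12 : z 1 * y 2 = z 2 * y 1 := by
          rw [y1, y2]
          linear_combination Bf T p p (v' 0) * f2 - lm p c (v' 0) * f1
        intro i j
        fin_cases i <;> fin_cases j
        · rfl
        · exact p01
        · exact p02
        · exact p01.symm
        · rfl
        · exact p12
        · exact p02.symm
        · exact p12.symm
        · rfl
      funext j
      rw [Pi.zero_apply]
      have h1 : z j ^ 2 * qm (Matrix.of fun i j => Bf T p (v' i) (v' j)) y =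
          y j ^ 2 * qm (Matrix.of fun i j => Bf T p (v' i) (v' j)) z := by
        simp only [qm, dotProduct, Matrix.mulVec, Finset.mul_sum]
        refine Finset.sum_congr rfl fun i _ => Finset.sum_congr rfl fun l _ => ?_
        linear_combination (Matrix.of fun i j => Bf T p (v' i) (v' j)) i l *
          (z j * y l * hpar j i + y j * z i * hpar j l)
      rw [f3, mul_zero] at h1
      exact pow_eq_zero_iff (two_ne_zero) |>.1 ((mul_eq_zero.1 h1).resolve_right hcw)
    have h0 : a • p + b • q = 0 := by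
      rw [hz, hz0]
      funext m
      simp [cb]
    exact LinearIndependent.pair_iff.1 hli a b h0

end

end Pool.Agent.Q251.CF
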