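import Pool.Agent.TH892.CF3

/-!
Bateman-Horn for almost all polynomials of height at most `H`: positive primes, all lengths.
-/

set_option autoImplicit false

namespace Pool.Agent.Q251.CF

open Finset Polynomial Filter Topology
open Pool.Agent.TH892
open Pool.Agent.H442R2.EHI (evt_log_pow evt_log_ge)
open Pool.Agent.H300R2.BH
open Pool.Agent.H300R2.FB

lemma pv_mono (F : ℤ[X]) {K K' : ℕ} (h : K ≤ K') : pv F K ≤ pv F K' := by
  unfold pv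
  have : ((Icc 1 K).filter (fun k : ℕ => (F.eval (k : ℤ)).toNat.Prime)).card ≤
      ((Icc 1 K').filter (fun k : ℕ => (F.eval (k : ℤ)).toNat.Prime)).card :=
    card_le_card (filter_subset_filter _ (Icc_subset_Icc_right h))
  exact_mod_cast this

lemma lF_diff (F : ℤ[X]) {K K' : ℕ} (h : K ≤ K') :
    0 ≤ lF F K' - lF F K ∧ lF F K' - lF F K ≤ 2 * ((K' : ℝ) - K) := by
  classical
  have hsub : (Icc 1 K).filter (fun k : ℕ => 2 ≤ F.eval (k : ℤ)) ⊆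
      (Icc 1 K').filter (fun k : ℕ => 2 ≤ F.eval (k : ℤ)) :=
    filter_subset_filter _ (Icc_subset_Icc_right h)
  have he : lF F K' - lF F K = ∑ k ∈ ((Icc 1 K').filter (fun k : ℕ => 2 ≤ F.eval (k : ℤ))) \
      ((Icc 1 K).filter (fun k : ℕ => 2 ≤ F.eval (k : ℤ))),
      1 / Real.log ((F.eval (k : ℤ) : ℤ) : ℝ) := by
    unfold lF
    rw [← sum_sdiff hsub]
    ring
  have hmem : ∀ k ∈ ((Icc 1 K').filter (fun k : ℕ => 2 ≤ F.eval (k : ℤ))) \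
      ((Icc 1 K).filter (fun k : ℕ => 2 ≤ F.eval (k : ℤ))), 2 ≤ F.eval (k : ℤ) ∧ k ∈ Ioc K K' := by
    intro k hk
    rw [Finset.mem_sdiff, mem_filter, mem_filter, mem_Icc, mem_Icc, not_and] at hk
    obtain ⟨⟨⟨h1, h2⟩, h3⟩, h4⟩ := hk
    refine ⟨h3, ?_⟩
    rw [mem_Ioc]
    refine ⟨?_, h2⟩
    by_contra hcon
    exact h4 ⟨h1, by omega⟩ h3
  have hterm : ∀ k : ℕ, 2 ≤ F.eval (k : ℤ) → 0 ≤ 1 / Real.log ((F.eval (k : ℤ) : ℤ) : ℝ) ∧
      1 / Real.log ((F.eval (k : ℤ) : ℤ) : ℝ) ≤ 2 := by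
    intro k hk
    have h1 : (2:ℝ) ≤ ((F.eval (k : ℤ) : ℤ) : ℝ) := by exact_mod_cast hk
    have h2 : Real.log 2 ≤ Real.log ((F.eval (k : ℤ) : ℤ) : ℝ) := Real.log_le_log (by norm_num) h1
    have h3 : (0.5 : ℝ) < Real.log 2 := by have := Real.log_two_gt_d9; linarith
    constructor
    · apply div_nonneg zero_le_one
      linarith
    · rw [div_le_iff₀ (by linarith)]
      linarith
  rw [he]
  constructor
  · exact sum_nonneg fun k hk => (hterm k (hmem k hk).1).1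
  · calc _ ≤ ∑ _k ∈ ((Icc 1 K').filter (fun k : ℕ => 2 ≤ F.eval (k : ℤ))) \
      ((Icc 1 K).filter (fun k : ℕ => 2 ≤ F.eval (k : ℤ))), (2 : ℝ) :=
          sum_le_sum fun k hk => (hterm k (hmem k hk).1).2
      _ = (#(((Icc 1 K').filter (fun k : ℕ => 2 ≤ F.eval (k : ℤ))) \
      ((Icc 1 K).filter (fun k : ℕ => 2 ≤ F.eval (k : ℤ)))) : ℝ) * 2 := by
          rw [sum_const, nsmul_eq_mul]
      _ ≤ ((K' : ℝ) - K) * 2 := by
          apply mul_le_mul_of_nonneg_right _ (by norm_num)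
          have h1 := card_le_card (fun k hk => (hmem k hk).2)
          rw [Nat.card_Ioc] at h1
          have h2 : ((K' - K : ℕ) : ℝ) = (K' : ℝ) - K := by
            rw [Nat.cast_sub h]
          rw [← h2]
          exact_mod_cast h1
      _ = _ := by ring

lemma lF_le (F : ℤ[X]) (K : ℕ) : 0 ≤ lF F K ∧ lF F K ≤ 2 * K := by
  have h := lF_diff F (Nat.zero_le K)
  have h0 : lF F 0 = 0 := by
    unfold lF
    simp
  rw [h0] at h
  simpa using h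

lemma la_le (F : ℤ[X]) (K : ℕ) : 0 ≤ la F K ∧ la F K ≤ 2 * K := by
  have h := la_diff F (Nat.zero_le K)
  have h0 : la F 0 = 0 := by
    unfold la
    simp
  rw [h0] at h
  simpa using h

/-- first moment, positive primes -/
theorem mean_pos (j : ℕ) (hj : 1 ≤ j) (ε : ℝ) (hε : 0 < ε) (U : ℕ) : ∃ E1 : ℕ, ∀ E : ℕ, E1 ≤ E →
    ∃ B H0 : ℕ, ∀ H : ℕ, H0 ≤ H → ∀ K : ℕ, (H : ℝ) ^ ε ≤ K → (K : ℝ) * Real.log H ^ B ≤ H →
    ∑ c ∈ box j H, |pv (pol c) K - SS ⌊Real.log H ^ E⌋₊ (pol c) * lF (pol c) K| ≤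
      ((box j H).card : ℝ) * K / Real.log H ^ U := by
  obtain ⟨E1, hE1⟩ := mean_full j hj ε hε U
  refine ⟨E1, fun E hE => ?_⟩
  obtain ⟨B, H0, h⟩ := hE1 E hE
  refine ⟨B, H0, fun H hH K hK hKH => ?_⟩
  have hmf := h H hH K hK hKH
  rw [sum_box hj H (fun f _ => |pv f K - SS ⌊Real.log H ^ E⌋₊ f * lF f K|), card_box hj H]
  exact hmf

/-- **the exceptional set**, positive primes, all lengths `K` simultaneously -/
theorem exc_pos (j : ℕ) (hj : 1 ≤ j) (ε : ℝ) (hε : 0 < ε) (U : ℕ) : ∃ E1 : ℕ, ∀ E : ℕ, E1 ≤ E →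
    ∃ B H0 : ℕ, ∀ H : ℕ, H0 ≤ H → ∀ (P : (Fin (j + 1) → ℤ) → Prop) [DecidablePred P],
    (∀ c ∈ box j H, P c → ∃ K : ℕ, (H : ℝ) ^ ε ≤ K ∧ (K : ℝ) * Real.log H ^ B ≤ H ∧
        K / Real.log H ^ U < |pv (pol c) K - SS ⌊Real.log H ^ E⌋₊ (pol c) * lF (pol c) K|) →
    (((box j H).filter P).card : ℝ) ≤ ((box j H).card : ℝ) / Real.log H ^ U := by
  classical
  obtain ⟨E1, hE1⟩ := mean_pos j hj (ε / 2) (by positivity) (3 * U + 7)
  refine ⟨E1 + 1, fun E hE => ?_⟩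
  obtain ⟨B, x1, hb⟩ := hE1 E (by omega)
  obtain ⟨x2, hSS⟩ := SS_small (E - 1)
  rw [show E - 1 + 1 = E by omega] at hSS
  have hev : ∀ᶠ H : ℕ in atTop, x1 ≤ H ∧ x2 ≤ H ∧ 8 ≤ Real.log H ∧
      Real.log H ^ (U + 3) ≤ (H:ℝ) ^ (ε / 2) ∧ Real.log H ^ 1 ≤ (H:ℝ) ^ (ε / 2) ∧ 1 ≤ H := by
    filter_upwards [eventually_ge_atTop x1, eventually_ge_atTop x2,
      evt_log_ge 8, evt_log_pow (U + 3) (ε / 2) (by positivity),
      evt_log_pow 1 (ε / 2) (by positivity), eventually_ge_atTop 1]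
      with H h1 h2 h3 h5 h6 h8
    exact ⟨h1, h2, h3, h5, h6, h8⟩
  obtain ⟨H0, hH0⟩ := eventually_atTop.mp hev
  refine ⟨B + 1, H0, fun H hH P _ hP => ?_⟩
  obtain ⟨hx1, hx2, hL8, hLa, hLb, hH1⟩ := hH0 H hH
  obtain ⟨hz3, hSSz⟩ := hSS H hx2
  have hHr : (1 : ℝ) ≤ H := by exact_mod_cast hH1
  have h4a : 4 * (H:ℝ) ^ (ε / 2) ≤ (H:ℝ) ^ ε := by
    have h1 : (H:ℝ) ^ ε = (H:ℝ) ^ (ε / 2) * (H:ℝ) ^ (ε / 2) := by
      rw [← Real.rpow_add (by linarith)]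
      congr 1
      ring
    rw [h1]
    rw [pow_one] at hLb
    have : (4:ℝ) ≤ (H:ℝ) ^ (ε / 2) := by linarith
    gcongr
  exact all_K (box j H) (fun c K => pv (pol c) K) (fun c K => lF (pol c) K)
    (fun c => SS ⌊Real.log H ^ E⌋₊ (pol c)) U H ((H:ℝ) ^ (ε / 2)) B hL8
    (fun c _ K K' h => pv_mono _ h) (fun c _ K K' h => lF_diff _ h)
    (fun c _ => hSSz (pol c)) (hb H hx1) hLa P (by
      intro c0 hc0 hPc
      obtain ⟨K, hK1, hK2, hK3⟩ := hP c0 hc0 hPc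
      exact ⟨K, h4a.trans hK1, hK2, hK3⟩)

end Pool.Agent.Q251.CF
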